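import Pool.Agent.H70.GS.Targets
import Pool.Agent.H70.OQ.SGG

/-! Module LKX of gs_modules (helper70): the oracles of the stage. -/

set_option autoImplicit false

namespace Pool.Agent.H70.GS.LKX

open Pool.Agent.H6.NB Pool.Agent.H70.OQ Pool.Agent.H70.GS Finset

theorem bld_key {A : List Bool → (List Bool → Bool) → Prop} {σ O : List Bool → Bool}
    (h : Bldg A σ O) (s : List Bool) (c : Bool) (hc : A s O ↔ c = true) :
    O (key s) = xor (σ (key s)) c := by
  classical
  rw [h (key s)]
  congr 1
  have h3 : (∃ s', key s = key s' ∧ A s' O) ↔ A s O := by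
    constructor
    · rintro ⟨s', hs', h⟩
      have : s = s' := by
        unfold key at hs'
        simpa using hs'
      rw [this]; exact h
    · intro h
      exact ⟨s, rfl, h⟩
  rcases c with _ | _
  · rw [decide_eq_false_iff_not, h3, hc]; simp
  · rw [decide_eq_true_iff, h3, hc]

theorem er_eq {χ : List Bool → Bool} {s : List Bool} (O : List Bool → Bool)
    (h : ∀ w : List Bool, χ w = true → 2 ^ Nat.sqrt w.length ≤ s.length) : er χ s O = O := by
  funext w
  unfold er
  by_cases hw : χ w = true
  · have := h w hw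
    have h2 : decide (s.length < 2 ^ Nat.sqrt w.length) = false := decide_eq_false (by omega)
    rw [h2]; simp
  · simp [hw]

theorem er_mk1 {χ : List Bool → Bool} {s : List Bool} (O : List Bool → Bool) (u : List Bool)
    (h : ∀ w : List Bool, χ w = true → 2 ^ Nat.sqrt w.length ≤ s.length) (w : List Bool) :
    er (mk1 χ u) s O w = if w = u ∧ s.length < 2 ^ Nat.sqrt u.length then false else O w := by
  unfold er mk1
  by_cases hw : w = u
  · subst hw
    by_cases hs : s.length < 2 ^ Nat.sqrt w.length
    · simp [hs]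
    · simp [hs]
  · by_cases hx : χ w = true
    · have := h w hx
      have h2 : decide (s.length < 2 ^ Nat.sqrt w.length) = false := decide_eq_false (by omega)
      rw [h2]; simp [hw]
    · simp [hx, hw]

theorem er_mk1_false (χ : List Bool → Bool) (u s : List Bool) (O : List Bool → Bool)
    (h : O u = false) : er (mk1 χ u) s O = er χ s O := by
  funext w
  unfold er mk1
  by_cases hw : w = u
  · subst hw; rw [h]; simp
  · simp [hw]

theorem wst_eq (n : ℕ) (x : Rw n) (y : Wi n) : wst n x y = false :: nstr n 1 (x, y) := rfl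

theorem wst_len (n : ℕ) (x : Rw n) (y : Wi n) : (wst n x y).length = 3 * n + 1 := by
  unfold wst
  rw [List.length_cons, List.length_append, List.length_ofFn, List.length_ofFn]
  have : 2 ^ (0 + 1) * n = 2 * n := by norm_num
  rw [this]
  ring

theorem gam_ge {n : ℕ} (hn : 2 ≤ n) : 2 ≤ gam n := by
  unfold gam
  rw [Nat.le_sqrt]
  omega

theorem lc_zero {n : ℕ} (hn : 2 ≤ n) (s : List Bool) : lc n s = 0 ↔ s.length < 2 ^ gam n := by
  unfold lc
  split_ifs with h
  · simp [h]
  · constructor
    · intro h0
      exfalso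
      push Not at h
      have hg := gam_ge hn
      have hb : 1 < 2 ^ (gam n / 2) := Nat.one_lt_two_pow (by omega)
      have h1 : 2 ≤ Nat.log (2 ^ (gam n / 2)) s.length := by
        apply Nat.le_log_of_pow_le hb
        refine le_trans ?_ h
        rw [← pow_mul]
        exact Nat.pow_le_pow_right (by norm_num) (by omega)
      have h2 : 1 ≤ Nat.log 2 (Nat.log (2 ^ (gam n / 2)) s.length) := by
        apply Nat.le_log_of_pow_le (by norm_num)
        simpa using h1
      unfold lv at h0
      omega
    · intro h1; exact absurd h1 h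

theorem tbl_flp_same {X Y : Type} [DecidableEq X] [DecidableEq Y] (b : X → Bool) (v : X → Y)
    (x : X) (p : X × Y) (hp : p ≠ (x, v x)) :
    tbl (flp b x) v p = tbl b v p := by
  unfold tbl flp
  by_cases h1 : p.1 = x
  · have h2 : p.2 ≠ v p.1 := by
      intro h2
      apply hp
      rw [h1] at h2
      exact Prod.ext h1 h2
    have h3 : decide (p.2 = v p.1) = false := decide_eq_false h2
    rw [h3]; simp
  · rw [Function.update_of_ne h1]

theorem tb_flp_same (n : ℕ) (b : Rw n → Bool) (v : Rw n → Wi n) (x : Rw n)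
    (p : Nn n 1) (hp : p ≠ ((x, v x) : Rw n × Wi n)) :
    tb n (flp b x) v p = tb n b v p :=
  tbl_flp_same b v x ((p.1, p.2) : Rw n × Wi n) (fun h => hp h)

theorem tb_flp_self (n : ℕ) (b : Rw n → Bool) (v : Rw n → Wi n) (x : Rw n) (hx : b x = false) :
    tb n (flp b x) v ((x, v x) : Rw n × Wi n) = true := by
  unfold tb tbl flp
  simp [hx]

theorem tb_self (n : ℕ) (b : Rw n → Bool) (v : Rw n → Wi n) (x : Rw n) (hx : b x = false) :
    tb n b v ((x, v x) : Rw n × Wi n) = false := by
  unfold tb tbl
  simp [hx]

theorem lkx (h1 : T_CLH) (h2 : T_LKG) (h3 : T_EXG) (h4 : T_LAH) (h5 : T_MEH) (h6 : T_MEG) :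
    T_LKX := by
  classical
  intro dd prog χ₀ σ₀ O₀ n a t k h D hS b v κ P O₁ hO₁
  obtain ⟨hLv, hLA⟩ := h4 dd prog hS.small
  have hLA0 := hLA χ₀
  have hn2 := hS.n2
  -- marks of the old stages
  have hmk : ∀ s : Om n (2 ^ a), ∀ w : List Bool, χ₀ w = true → 2 ^ Nat.sqrt w.length ≤ s.1.length :=
    fun s w hw => (hS.mark w hw).trans s.2.1
  have hD0 : ∀ (s : Om n (2 ^ a)) T e P,
      (Ae dd prog χ₀ s.1 (fun w => vlG T e P (clg 1 n (2 ^ a) O₀ w)) ↔
        accG D P s T e = true) := by
    intro s T e P
    unfold Ae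
    rw [er_eq _ (hmk s)]
    exact hS.tru s T e P
  have hfix := Pool.Agent.H70.OQ.SGG.fixed h1 h2 hLA0 hn2 hS.old hO₁ hD0
  have hLvl := (h6 (Nn n 1) (Om n (2 ^ a)) (fun s => ns s.1) (fun s => qs s.1) D
    (fun s => lv n s.1) (2 ^ t) t k a hS.syg P).1
  have hun := (h3 (Nn n 1) (Om n (2 ^ a)) (accG D P) (fun s => lv n s.1) a hLvl).2.1
  have hfirst : (fun s : Om n (2 ^ a) => O₁ (key s.1)) = elG (accG D P) (tb n b v) κ a :=
    hun (tb n b v) κ _ hfix
  refine ⟨hfirst, ?_⟩
  intro x hbx Ox hOx
  -- notation
  set e : Om n (2 ^ a) → Bool := fun s => O₁ (key s.1) with he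
  set ex : Om n (2 ^ a) → Bool := fun s => Ox (key s.1) with hex
  set T : Nn n 1 → Bool := tb n b v with hT
  set U : Nn n 1 → Bool := tb n (flp b x) v with hU
  set X : List Bool := wst n x (v x) with hX
  set L : Om n (2 ^ a) → ℕ := fun s => lc n s.1 with hL
  have hXlen : X.length = 3 * n + 1 := wst_len n x (v x)
  have hXg : Nat.sqrt X.length = gam n := by rw [hXlen]; rfl
  obtain ⟨c1, c2, c3, c4⟩ := h1 1 n (2 ^ a) O₀
  have hclX : clg 1 n (2 ^ a) O₀ X = .bas ((x, v x) : Rw n × Wi n) := c1 ((x, v x) : Rw n × Wi n)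
  have hbas : ∀ w p, clg 1 n (2 ^ a) O₀ w = .bas p → w = false :: nstr n 1 p := by
    intro w p hw
    rcases c4 w with ⟨p', h⟩ | ⟨s', h⟩ | ⟨s', i, v', h⟩ | h
    · have := c1 p'
      rw [← h, hw] at this
      have hp : p = p' := by simpa using this
      rw [hp]; exact h
    · have := c2 s'
      rw [← h, hw] at this
      exact absurd this (by simp)
    · have := c3 s' i v'
      rw [← h, hw] at this
      exact absurd this (by simp)
    · rw [h] at hw
      exact absurd hw (by simp)
  -- (i)
  have hO₀X : O₀ X = false := by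
    have e1 : O₀ X = σ₀ X := Pool.Agent.H70.OQ.SGG.bld_base hS.old _
    rw [e1]
    apply hS.empty
    have : (List.ofFn x ++ List.ofFn (v x)).length + 1 = 3 * n + 1 := hXlen
    omega
  have h0' : Bldg (Ae dd prog (mk1 χ₀ X)) σ₀ O₀ := by
    intro w
    rw [hS.old w]
    congr 2
    apply propext
    refine exists_congr fun s => and_congr_right fun _ => ?_
    have hO : O₀ = fun w => xor (σ₀ w) (decide (∃ s, w = key s ∧ Ae dd prog χ₀ s O₀)) :=
      funext hS.old
    unfold Ae
    rw [er_mk1_false χ₀ X s O₀ hO₀X]
  -- (iv)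
  have hLA' := hLA (mk1 χ₀ X)
  have hvx : ∀ w : List Bool, w.length ≤ n ^ 2 ^ a → Ox w = vlG U ex P (clg 1 n (2 ^ a) O₀ w) :=
    h2 1 _ n (2 ^ a) σ₀ O₀ Ox U κ P hLA' hn2 h0' hOx
  have hv1 : ∀ w : List Bool, w.length ≤ n ^ 2 ^ a → O₁ w = vlG T e P (clg 1 n (2 ^ a) O₀ w) :=
    h2 1 _ n (2 ^ a) σ₀ O₀ O₁ T κ P hLA0 hn2 hS.old hO₁
  have hle : ∀ w s : List Bool, w.length ^ 2 ≤ s.length → s.length < n ^ 2 ^ a →
      w.length ≤ n ^ 2 ^ a := by
    intro w s hw hs
    have h4 : w.length ≤ w.length ^ 2 := Nat.le_self_pow (by norm_num) _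
    omega
  -- the value of the erased oracle
  have hTU : ∀ w : List Bool, w ≠ X → ∀ ee : Om n (2 ^ a) → Bool,
      vlG U ee P (clg 1 n (2 ^ a) O₀ w) = vlG T ee P (clg 1 n (2 ^ a) O₀ w) := by
    intro w hw ee
    rcases hc : clg 1 n (2 ^ a) O₀ w with b' | p | s | ⟨s, i, v'⟩
    · rfl
    · change U p = T p
      apply tb_flp_same n b v x
      rintro rfl
      exact hw (hbas w _ hc)
    · rfl
    · rfl
  have hTX : ∀ ee : Om n (2 ^ a) → Bool, vlG T ee P (clg 1 n (2 ^ a) O₀ X) = false := by
    intro ee
    rw [hclX]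
    exact tb_self n b v x hbx
  -- the answers
  have hansU : ∀ s : Om n (2 ^ a), (accv dd prog s.1 Ox ↔ accG D P s U ex = true) := by
    intro s
    rw [← hS.tru s U ex P]
    exact hLv s.1 _ _ fun w hw => hvx w (hle w s.1 hw s.2.2)
  have hansA : ∀ s : Om n (2 ^ a), 2 ^ gam n ≤ s.1.length →
      (Ae dd prog (mk1 χ₀ X) s.1 Ox ↔ accG D P s U ex = true) := by
    intro s hs
    rw [← hansU s]
    unfold Ae
    have : er (mk1 χ₀ X) s.1 Ox = Ox := by
      funext w
      rw [er_mk1 Ox X (hmk s) w, if_neg]
      rintro ⟨-, h⟩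
      rw [hXg] at h
      omega
    rw [this]
  have hansB : ∀ s : Om n (2 ^ a), s.1.length < 2 ^ gam n →
      (Ae dd prog (mk1 χ₀ X) s.1 Ox ↔ accG D P s T ex = true) := by
    intro s hs
    rw [← hS.tru s T ex P]
    unfold Ae
    refine hLv s.1 _ _ fun w hw => ?_
    rw [er_mk1 Ox X (hmk s) w]
    by_cases hwX : w = X
    · rw [if_pos ⟨hwX, by rw [hXg]; exact hs⟩, hwX, hTX]
    · rw [if_neg (fun h => hwX h.1), hvx w (hle w s.1 hw s.2.2)]
      exact hTU w hwX ex
  have hseed : ∀ (T' : Nn n 1 → Bool) (s : Om n (2 ^ a)),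
      sdg 1 n (2 ^ a) σ₀ T' κ P (key s.1) = κ s := by
    intro T' s
    unfold sdg
    rw [(h1 1 n (2 ^ a) σ₀).2.1 s]
    rfl
  have hexU : ∀ s : Om n (2 ^ a), 2 ^ gam n ≤ s.1.length → ex s = xor (κ s) (accG D P s U ex) := by
    intro s hs
    have := bld_key hOx s.1 _ (hansA s hs)
    rw [hseed] at this
    exact this
  have hexT : ∀ s : Om n (2 ^ a), s.1.length < 2 ^ gam n → ex s = xor (κ s) (accG D P s T ex) := by
    intro s hs
    have := bld_key hOx s.1 _ (hansB s hs)
    rw [hseed] at this
    exact this
  have hL0 : ∀ s : Om n (2 ^ a), L s = 0 ↔ s.1.length < 2 ^ gam n := fun s => lc_zero hn2 s.1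
  -- (vi)
  have hlow0 : ∀ (s : Om n (2 ^ a)) (T' : Nn n 1 → Bool) (e1 e2 : Om n (2 ^ a) → Bool), L s = 0 →
      (∀ s', L s' = 0 → e1 s' = e2 s') → accG D P s T' e1 = accG D P s T' e2 := by
    intro s T' e1 e2 hs hee
    unfold accG
    apply hS.crs.low s
    intro c hc
    rcases c with b' | p | s' | ⟨s', i, v'⟩
    · rfl
    · rfl
    · have hc' : L s' < L s ∨ L s' = 0 := hc
      have : L s' = 0 := by omega
      exact hee s' this
    · rfl
  have hT0 : ∀ m : ℕ, ∀ s : Om n (2 ^ a), lv n s.1 = m → L s = 0 → 
      accG D P s T ex = accG D P s T e ∧ ex s = e s := by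
    intro m
    induction m using Nat.strong_induction_on with
    | _ m ih =>
      intro s hm hs
      have e1 : accG D P s T ex = accG D P s T (fun s' => if L s' = 0 then ex s' else e s') := by
        apply hlow0 s T _ _ hs
        intro s' hs'
        rw [if_pos hs']
      have e2 : accG D P s T (fun s' => if L s' = 0 then ex s' else e s') = accG D P s T e := by
        unfold accG
        apply hS.syg.low s
        intro c hc
        rcases c with b' | p | s' | ⟨s', i, v'⟩
        · rfl
        · rfl
        · have hc' : lv n s'.1 < lv n s.1 := hc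
          change (if L s' = 0 then ex s' else e s') = e s'
          split_ifs with h0
          · exact (ih (lv n s'.1) (by omega) s' rfl h0).2
          · rfl
        · rfl
      have e3 := e1.trans e2
      refine ⟨e3, ?_⟩
      rw [hexT s ((hL0 s).1 hs), e3]
      have := hfix s
      change e s = xor (accG D P s T e) (κ s) at this
      rw [this, Bool.xor_comm]
  have hexe : ∀ s : Om n (2 ^ a), L s = 0 → ex s = e s := fun s hs => (hT0 _ s rfl hs).2
  have hTe : ∀ s : Om n (2 ^ a), L s = 0 → accG D P s T ex = accG D P s T e :=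
    fun s hs => (hT0 _ s rfl hs).1
  have hUe : ∀ s : Om n (2 ^ a), L s = 0 → accG D P s U ex = accG D P s U e :=
    fun s hs => hlow0 s U ex e hs hexe
  -- (vii)
  have hth : thG (accH L D P) (TH T e) e = κ := by
    funext s
    unfold thG accH
    have e1 : vlH L (TH T e) e P = vlG T e P := by
      funext c
      rcases c with b' | p | s' | ⟨s', i, v'⟩
      · rfl
      · rfl
      · change (if L s' = 0 then e s' else e s') = e s'
        split_ifs <;> rfl
      · rfl
    rw [e1]
    have := hfix s
    change e s = xor (D s (vlG T e P)) (κ s) at this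
    rw [this]
    cases D s (vlG T e P) <;> cases κ s <;> rfl
  have hexG : (fun s => if L s = 0 then xor (accG D P s U e) (κ s) else ex s) =
      exG (accH L D P) h (TH T e) (TH U e) e := by
    unfold exG
    rw [hth]
    have hLvH := (h5 (Nn n 1) (Om n (2 ^ a)) (fun s => ns s.1) (fun s => qs s.1) D L (2 ^ t) t k h
      hS.crs P).1
    apply (h3 (Nn n 1 ⊕ Om n (2 ^ a)) (Om n (2 ^ a)) (accH L D P) L h hLvH).2.1
    intro s
    have e1 : vlH L (TH U e) (fun s => if L s = 0 then xor (accG D P s U e) (κ s) else ex s) P =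
        vlG U ex P := by
      funext c
      rcases c with b' | p | s' | ⟨s', i, v'⟩
      · rfl
      · rfl
      · change (if L s' = 0 then e s' else
          (if L s' = 0 then xor (accG D P s' U e) (κ s') else ex s')) = ex s'
        split_ifs with h0
        · exact (hexe s' h0).symm
        · rfl
      · rfl
    unfold accH
    rw [e1]
    change (if L s = 0 then xor (accG D P s U e) (κ s) else ex s) = xor (accG D P s U ex) (κ s)
    split_ifs with h0
    · rw [hUe s h0]
    · have hs : 2 ^ gam n ≤ s.1.length := by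
        by_contra hlt
        exact h0 ((hL0 s).2 (by omega))
      rw [hexU s hs, Bool.xor_comm]
  have hdl : ∀ s : Om n (2 ^ a), dlG (accH L D P) h (TH T e) (TH U e) e s =
      xor (e s) (if L s = 0 then xor (accG D P s U e) (κ s) else ex s) := by
    intro s
    unfold dlG
    rw [← hexG]
  have hsec : ∀ w : List Bool, w.length < 2 ^ gam n → Ox w = Function.update O₁ X true w := by
    intro w hw
    have hwl : w.length ≤ n ^ 2 ^ a := (le_of_lt hw).trans hS.hi
    by_cases hwX : w = X
    · rw [hwX, Function.update_self, hvx X (hwX ▸ hwl), hclX]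
      exact tb_flp_self n b v x hbx
    · rw [Function.update_of_ne hwX, hvx w hwl, hv1 w hwl, hTU w hwX ex]
      rcases hc : clg 1 n (2 ^ a) O₀ w with b' | p | s | ⟨s, i, v'⟩
      · rfl
      · rfl
      · change ex s = e s
        apply hexe
        rw [hL0]
        have hws : w = key s.1 := by
          rcases c4 w with ⟨p', h⟩ | ⟨s', h⟩ | ⟨s', i, v', h⟩ | h
          · have := c1 p'
            rw [← h, hc] at this
            exact absurd this (by simp)
          · have := c2 s'
            rw [← h, hc] at this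
            have hp : s = s' := by simpa using this
            rw [hp]; exact h
          · have := c3 s' i v'
            rw [← h, hc] at this
            exact absurd this (by simp)
          · rw [h] at hc
            exact absurd hc (by simp)
        rw [hws] at hw
        simp only [key, List.length_cons] at hw
        omega
      · rfl
  have hans1 : ∀ s : Om n (2 ^ a), (accv dd prog s.1 O₁ ↔ accG D P s T e = true) := by
    intro s
    rw [← hS.tru s T e P]
    exact hLv s.1 _ _ fun w hw => hv1 w (hle w s.1 hw s.2.2)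
  refine ⟨hsec, ?_, ?_, ?_⟩
  · -- third claim
    intro w hwl hne
    by_cases hwX : w = X
    · exact Or.inl hwX
    · right
      rw [hvx w hwl, hv1 w hwl, hTU w hwX ex] at hne
      rcases c4 w with ⟨p', h⟩ | ⟨s', h⟩ | ⟨s', i, v', h⟩ | h
      · exfalso
        have := c1 p'
        rw [← h] at this
        rw [this] at hne
        exact hne rfl
      · refine ⟨s', h, ?_⟩
        have := c2 s'
        rw [← h] at this
        rw [this] at hne
        have hne' : ex s' ≠ e s' := hne
        rw [hdl, if_neg (fun h0 => hne' (hexe s' h0))]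
        revert hne'
        cases ex s' <;> cases e s' <;> simp
      · exfalso
        have := c3 s' i v'
        rw [← h] at this
        rw [this] at hne
        exact hne rfl
      · exfalso
        rw [h] at hne
        exact hne rfl
  · -- fourth claim
    intro s hs hms hne
    by_cases hs2 : n ^ 2 ≤ s.length
    · refine ⟨⟨s, hs2, hs⟩, rfl, ?_⟩
      set s' : Om n (2 ^ a) := ⟨s, hs2, hs⟩ with hs'
      by_cases hg : s.length < 2 ^ gam n
      · have hL' : L s' = 0 := (hL0 s').2 hg
        have hA := hansB s' hg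
        have hB := hansU s'
        have hne' : accG D P s' T e ≠ accG D P s' U e := by
          intro heq
          apply hne
          have hA' : Ae dd prog (mk1 χ₀ X) s Ox ↔ accG D P s' T ex = true := hA
          have hB' : accv dd prog s Ox ↔ accG D P s' U ex = true := hB
          rw [hA', hB', hTe s' hL', hUe s' hL', heq]
        rw [hdl, if_pos hL']
        have := hfix s'
        change e s' = xor (accG D P s' T e) (κ s') at this
        rw [this]
        revert hne'
        cases accG D P s' T e <;> cases accG D P s' U e <;> cases κ s' <;> simp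
      · exfalso
        apply hne
        unfold Ae
        have : er (mk1 χ₀ X) s Ox = Ox := by
          funext w
          rw [er_mk1 Ox X hms w, if_neg]
          rintro ⟨-, h⟩
          rw [hXg] at h
          omega
        rw [this]
    · exfalso
      apply hne
      unfold Ae
      refine hLv s _ _ fun w hw => ?_
      rw [er_mk1 Ox X hms w, if_neg]
      rintro ⟨hwX, -⟩
      rw [hwX, hXlen] at hw
      have : n ^ 2 ≤ (3 * n + 1) ^ 2 := Nat.pow_le_pow_left (by omega) 2
      omega
  · -- fifth claim
    intro s hs hne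
    by_cases hs2 : n ^ 2 ≤ s.length
    · refine ⟨⟨s, hs2, hs⟩, rfl, ?_⟩
      set s' : Om n (2 ^ a) := ⟨s, hs2, hs⟩ with hs'
      have hne' : accG D P s' T e ≠ accG D P s' U ex := by
        intro heq
        apply hne
        have hA' : accv dd prog s Ox ↔ accG D P s' U ex = true := hansU s'
        have hB' : accv dd prog s O₁ ↔ accG D P s' T e = true := hans1 s'
        rw [hA', hB', heq]
      have h6 := hfix s'
      change e s' = xor (accG D P s' T e) (κ s') at h6
      rw [hdl, h6]
      by_cases h0 : L s' = 0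
      · rw [if_pos h0, ← hUe s' h0]
        revert hne'
        cases accG D P s' T e <;> cases accG D P s' U ex <;> cases κ s' <;> simp
      · have hs3 : 2 ^ gam n ≤ s'.1.length := by
          by_contra hlt
          exact h0 ((hL0 s').2 (by omega))
        rw [if_neg h0, hexU s' hs3]
        revert hne'
        cases accG D P s' T e <;> cases accG D P s' U ex <;> cases κ s' <;> simp
    · exfalso
      apply hne
      refine hLv s _ _ fun w hw => ?_
      have hwn : w.length < n := by
        have h7 : w.length ^ 2 < n ^ 2 := by omega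
        exact lt_of_pow_lt_pow_left₀ 2 (Nat.zero_le _) h7
      have hwX : w ≠ X := by
        rintro rfl
        omega
      have hwl : w.length ≤ n ^ 2 ^ a := hle w s hw hs
      rw [hvx w hwl, hv1 w hwl, hTU w hwX ex]
      rcases c4 w with ⟨p', h⟩ | ⟨s', h⟩ | ⟨s', i, v', h⟩ | h
      · have h8 := c1 p'
        rw [← h] at h8
        rw [h8]
        rfl
      · exfalso
        have h9 : s'.1.length ≤ w.length := by
          rw [h]
          simp only [key, List.length_cons]
          omega
        have h10 := s'.2.1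
        have h11 : n ≤ n ^ 2 := Nat.le_self_pow (by norm_num) _
        omega
      · have h8 := c3 s' i v'
        rw [← h] at h8
        rw [h8]
        rfl
      · rw [h]
        rfl

end Pool.Agent.H70.GS.LKX
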