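import Pool.Agent.H70.GS.Targets

/-!
# The queries of a sampler can be renamed
-/

set_option autoImplicit false

namespace Pool.Agent.H70.GS.REL

open Pool.Agent.H6.NB Pool.Agent.H70.OQ Pool.Agent.H70.GS Finset
open scoped Matrix

/-- The sampler with renamed queries and outputs. -/
def rn (S : Samp) (f g : List Bool → List Bool) : Samp where
  alg :=
    { basis := S.alg.basis
      query := fun i => (S.alg.query i).map f
      T := S.alg.T
      U := S.alg.U
      unitary := S.alg.unitary
      init := S.alg.init
      norm_init := S.alg.norm_init
      acc := S.alg.acc }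
  out := fun i => g (S.out i)

theorem state_rn (S : Samp) (f g : List Bool → List Bool) (O O' : List Bool → Bool)
    (h : ∀ i w, S.alg.query i = some w → O' (f w) = O w) (t : ℕ) :
    (rn S f g).alg.state O' t = S.alg.state O t := by
  have hp : ∀ i, (rn S f g).alg.phase O' i = S.alg.phase O i := by
    intro i
    unfold QAlg.phase
    change (match (S.alg.query i).map f with
      | none => (1 : ℂ)
      | some w => if O' w then -1 else 1) = _
    cases hq : S.alg.query i with
    | none => rfl
    | some w => simp only [Option.map_some, h i w hq]
  induction t with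
  | zero => rfl
  | succ t ih =>
    have e1 : (rn S f g).alg.state O' (t + 1) = S.alg.U (t + 1) *ᵥ
        fun i => (rn S f g).alg.phase O' i * (rn S f g).alg.state O' t i := rfl
    have e2 : S.alg.state O (t + 1) = S.alg.U (t + 1) *ᵥ
        fun i => S.alg.phase O i * S.alg.state O t i := rfl
    rw [e1, e2]
    congr 1
    funext i
    rw [hp i]
    exact congrArg _ (congrFun ih i)

theorem rel : T_REL := by
  classical
  intro S f g
  refine ⟨rn S f g, rfl, ?_, ?_, ?_⟩
  · intro m hm i w hw
    change (S.alg.query i).map f = some w at hw
    rw [Option.map_eq_some_iff] at hw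
    obtain ⟨u, hu, rfl⟩ := hw
    exact hm i u hu
  · intro P hP i
    exact hP i
  · intro O O' E E' h hE
    unfold Samp.prob
    have e1 : (rn S f g).alg.state O' (rn S f g).alg.T = S.alg.state O S.alg.T :=
      state_rn S f g O O' h _
    rw [e1]
    refine sum_le_sum_of_subset_of_nonneg ?_ fun _ _ _ => by positivity
    intro i hi
    exact mem_filter.2 ⟨mem_univ _, hE _ (mem_filter.1 hi).2⟩

end Pool.Agent.H70.GS.REL
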