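import Pool.Agent.H70.GS.SGL

/-!
# One stage of the construction
-/

set_option autoImplicit false

namespace Pool.Agent.H70.GS.SGU

open Pool.Agent.H6.NB Pool.Agent.H70.OQ Pool.Agent.H70.GS Pool.Agent.H70.GS.SGL Finset Filter

/-- The oracle built from a seed. -/
noncomputable def bo {A : List Bool → (List Bool → Bool) → Prop} (hA : LocA A)
    (σ : List Bool → Bool) : List Bool → Bool := (pf_BLG A hA σ).choose

theorem bo_spec {A : List Bool → (List Bool → Bool) → Prop} (hA : LocA A)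
    (σ : List Bool → Bool) : Bldg A σ (bo hA σ) := (pf_BLG A hA σ).choose_spec

theorem tb_update {n : ℕ} (b : Rw n → Bool) (v : Rw n → Wi n) (x : Rw n) (y : Wi n)
    (hb : b x = false) : tb n b (Function.update v x y) = tb n b v := by
  funext p
  unfold tb tbl
  simp only
  by_cases hp : (p.1 : Rw n) = x
  · have : b p.1 = false := by rw [hp]; exact hb
    rw [this]; rfl
  · have : Function.update v x y p.1 = v p.1 := Function.update_of_ne hp _ _
    rw [this]

theorem sq_le (s : ℕ) : s ^ 2 ≤ 3 * 2 ^ s + 1 := by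
  induction s with
  | zero => norm_num
  | succ s ih =>
    have h1 : s < 2 ^ s := Nat.lt_two_pow_self
    rw [pow_succ 2 s]
    nlinarith

/-- Avoiding bad elements. -/
theorem exists_good {Z : Type} [Fintype Z] [DecidableEq Z] (N : ℕ) (hZ : N ≤ 2 * Fintype.card Z)
    (A B C : Finset Z) (h : 16 * (A.card + B.card + C.card) < 8 * N) :
    ∃ x, x ∉ A ∧ x ∉ B ∧ x ∉ C := by
  by_contra hno
  push Not at hno
  have h1 : (univ : Finset Z) ⊆ A ∪ B ∪ C := by
    intro x _
    simp only [mem_union]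
    by_contra h2
    push Not at h2
    exact h2.2 (hno x h2.1.1 h2.1.2)
  have h2 := card_le_card h1
  have h3 := card_union_le (A ∪ B) C
  have h4 := card_union_le A B
  rw [card_univ] at h2
  omega

/-- The number of rows at which the samplers find an error. -/
theorem count_F {Z ι : Type} [Fintype Z] [DecidableEq Z] [Fintype ι] (g c M : ℕ) (n : ℕ)
    (hι : Fintype.card ι ≤ 2 ^ (g * c)) (hfin : 2 ^ 11 * M * 2 ^ (5 * (g * c)) ≤ 2 ^ n)
    (T : ι → ℕ) (hT : ∀ i, T i ≤ 2 ^ (g * c)) (B : ι → Finset Z)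
    (hB : ∀ i, ((B i).card : ℝ) ≤ 2 * M / (1 / 2) ^ (g * c) + 64 * (T i) ^ 2 * M /
      ((1 / 2) ^ (g * c)) ^ 2) (A : Finset Z) (hA : ∀ x ∈ A, ∃ i, x ∈ B i) :
    16 * A.card ≤ 2 ^ n := by
  classical
  set E : ℕ := 2 ^ (g * c) with hE
  have hE1 : 1 ≤ E := Nat.one_le_two_pow
  have h0 : ((1 : ℝ) / 2) ^ (g * c) = 1 / E := by
    rw [hE]; push_cast; rw [div_pow, one_pow]
  have h1 : ∀ i, (B i).card ≤ 66 * M * E ^ 4 := by
    intro i
    have h2 := hB i
    rw [h0] at h2
    have h3 : (T i : ℝ) ≤ E := by exact_mod_cast hT i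
    have hE1' : (1 : ℝ) ≤ E := by exact_mod_cast hE1
    have h4 : ((B i).card : ℝ) ≤ 66 * M * (E : ℝ) ^ 4 := by
      refine h2.trans ?_
      have e1 : 2 * (M : ℝ) / (1 / (E : ℝ)) = 2 * M * E := by field_simp
      have e2 : 64 * (T i : ℝ) ^ 2 * M / (1 / (E : ℝ)) ^ 2 = 64 * (T i : ℝ) ^ 2 * M * E ^ 2 := by
        field_simp
      rw [e1, e2]
      have hM0 : (0 : ℝ) ≤ M := by positivity
      have e3 : (T i : ℝ) ^ 2 ≤ (E : ℝ) ^ 2 := pow_le_pow_left₀ (by positivity) h3 2
      have e4 : (E : ℝ) ≤ (E : ℝ) ^ 4 := le_self_pow₀ hE1' (by norm_num)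
      calc 2 * (M : ℝ) * E + 64 * (T i : ℝ) ^ 2 * M * E ^ 2
          ≤ 2 * M * (E : ℝ) ^ 4 + 64 * (E : ℝ) ^ 2 * M * E ^ 2 := by gcongr
        _ = _ := by ring
    exact_mod_cast h4
  have h2 : A ⊆ univ.biUnion B := by
    intro x hx
    obtain ⟨i, hi⟩ := hA x hx
    exact mem_biUnion.2 ⟨i, mem_univ _, hi⟩
  have h3 : A.card ≤ Fintype.card ι * (66 * M * E ^ 4) := by
    refine (card_le_card h2).trans (card_biUnion_le.trans ?_)
    refine (sum_le_sum fun i _ => h1 i).trans ?_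
    rw [sum_const, card_univ, smul_eq_mul]
  have h5 : Fintype.card ι * (66 * M * E ^ 4) ≤ E * (66 * M * E ^ 4) := Nat.mul_le_mul_right _ hι
  have h6 : 2 ^ (5 * (g * c)) = E ^ 5 := by
    rw [hE, ← pow_mul]; ring_nf
  rw [h6] at hfin
  calc 16 * A.card ≤ 16 * (E * (66 * M * E ^ 4)) := by omega
    _ = 1056 * (M * E ^ 5) := by ring
    _ ≤ 2048 * (M * E ^ 5) := Nat.mul_le_mul_right _ (by norm_num)
    _ = 2 ^ 11 * M * E ^ 5 := by ring
    _ ≤ _ := hfin

theorem sgu (hLAH : T_LAH) (hBUX : T_BUX) (hFMU : T_FMU) (hEXK : T_EXK) (hBSU : T_BSU)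
    (hBBC : T_BBC) (hSMP : T_SMP) (hREV : T_REV) (hLKX : T_LKX) (hPRU : T_PRU) : T_SGU := by
  classical
  intro k c C ε hε
  obtain ⟨e, h, hev⟩ := hPRU k c C ε hε
  refine ⟨e, ?_⟩
  filter_upwards [hev] with n hn
  obtain ⟨a, t, S', M, w', w0, r0, τ, w, r, K, δ, δm, hn3, hh1, hca, hae, h3n, hga, hnc, hnt, hbh,
    hw0, hk0, hδ0, hPrm, hδm, hδ16, h2S, htS, hKM, hM1, hMS, hbig, hw1, hL, hτ, hτ2, hfin⟩ := hn
  intro dd prog hs hdd Q hQ ι _ F hι hF σ₀ χ₀ hσ hone hemp hmark hFm
  have hn2 : 2 ≤ n := by omega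
  have hA : ∀ χ, LocA (Ae dd prog χ) := (hLAH dd prog hs).2
  have : Finite (Om n (2 ^ a)) := pf_FIS.2.1 n (2 ^ a)
  let inst : Fintype (Om n (2 ^ a)) := Fintype.ofFinite _
  obtain ⟨hcard, hsum⟩ := pf_FIS.2.2 n (2 ^ a)
  obtain ⟨O₀, h0⟩ := pf_BLG _ (hA χ₀) σ₀
  obtain ⟨D, hSys, hCrs, hD⟩ := hFMU dd prog k n a t h O₀ hs
    (fun s => hdd s.1 (lt_of_lt_of_le s.2.2 hae)) hn2 hnt hh1 hbh
  have hStg : Stg dd prog χ₀ σ₀ O₀ n a t k h D :=
    ⟨hs, hn2, hga, fun w hw => (hmark w hw).trans (Nat.le_self_pow (by norm_num) n),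
      fun w hw => hemp w (by rw [hw]; omega), h0, hSys, hCrs, hD⟩
  have hX : Fintype.card (Rw n) = 2 ^ n := by simp [Rw]
  have hlen : ∀ s : Om n (2 ^ a), n ≤ s.1.length := fun s =>
    (Nat.le_self_pow (by norm_num) n).trans s.2.1
  have hq : (1 : ℝ) / 16 ≥ 2 / 2 ^ n ^ 2 := by
    have : (512 : ℝ) ≤ 2 ^ n ^ 2 := by
      calc (512 : ℝ) = 2 ^ 9 := by norm_num
        _ ≤ 2 ^ n ^ 2 := pow_le_pow_right₀ (by norm_num) (by nlinarith)
    rw [ge_iff_le, div_le_div_iff₀ (by positivity) (by norm_num)]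
    linarith
  -- the event that the witnesses are not found
  let G : (Om n (2 ^ a) → Bool) → Blk (fun s : Om n (2 ^ a) => ns s.1) (fun s => qs s.1) →
      (Rw n → Bool) → (Rw n → Wi n) → List Bool → Bool :=
    fun κ P b v => bo (hA χ₀) (sdg 1 n (2 ^ a) σ₀ (tb n b v) κ P)
  have hR : ∀ κ P, (univ.filter fun p : (Rw n → Bool) × (Rw n → Wi n) =>
      ¬ Rv (G κ P) (wst n) (fun x => Q (List.ofFn x)) p).card * 4 ≤
      3 * Fintype.card ((Rw n → Bool) × (Rw n → Wi n)) := by
    intro κ P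
    refine hREV (Rw n) (Wi n) (G κ P) (wst n) (fun x => Q (List.ofFn x)) τ ?_ ?_ ?_ ?_
    · intro b v x y hb
      simp only [G]
      rw [tb_update b v x y hb]
    · intro x y y' hyy
      exact (wst_inj n x x y y' hyy).2
    · intro x
      have h1 := (hQ (List.ofFn x) (by simp)).2
      exact_mod_cast h1.trans hτ
    · have h1 : Fintype.card (Wi n) = 2 ^ (2 * n) := by simp [Wi, Ys]
      rw [h1]
      exact hτ2.trans (Nat.pow_le_pow_right (by norm_num) (by omega))
  -- the base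
  have hbase : ∀ f : (Nn n 1 → Bool) → Bool, Fm (2 ^ t) t k f →
      ((univ.filter fun p : (Rw n → Bool) × (Rw n → Wi n) => K 0 < (univ.filter fun x : Rw n =>
        f (tb n (flp p.1 x) p.2) ≠ f (tb n p.1 p.2)).card).card : ℝ) ≤
        δ 0 * Fintype.card ((Rw n → Bool) × (Rw n → Wi n)) := by
    intro f hf
    have h1 := hBSU (Rw n) (Wi n) (2 ^ t) t k w0 r0 (K 0) f hf le_rfl hw0 hk0
    refine le_trans h1 (mul_le_mul_of_nonneg_right ?_ (by positivity))
    rw [hX]
    push_cast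
    exact hδ0
  obtain ⟨⟨b, v⟩, κ, P, hTy, hDec, hRv⟩ := hEXK ((Rw n → Bool) × (Rw n → Wi n)) (Rw n) (Nn n 1)
    (Om n (2 ^ a)) (fun s => ns s.1) (fun s => qs s.1) (fun p => tb n p.1 p.2)
    (fun p x => tb n (flp p.1 x) p.2) D (fun s => lv n s.1) (fun s => lc n s.1) (2 ^ t) t k a h S' M
    w r K δ δm (2 ^ n - 1) (fun p κ P => Rv (G κ P) (wst n) (fun x => Q (List.ofFn x)) p) hSys hCrs
    (by rw [hX]; exact hPrm) hbase hδm (by rw [hX]; exact Nat.one_le_two_pow) h2S htS htS hKM hMS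
    (by rw [hX]; exact (Nat.mul_le_mul_right _ hcard).trans hbig)
    (fun s => by simp only [qs]; omega)
    (fun s f hf => by
      have e0 : (k + 5) * h + 2 = (k + 5) * h + 1 + 1 := rfl
      rw [e0] at hf
      have := pf_L12 (VV (qs s.1)) S' ((k + 5) * h + 1) w' f hw1 hf
      refine this.trans ?_
      have hc : (Fintype.card (VV (qs s.1)) : ℝ) = 2 * 2 ^ qs s.1 := by
        have : Fintype.card (VV (qs s.1)) = 2 * 2 ^ qs s.1 := by simp [VV]
        rw [this]; push_cast; rfl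
      rw [hc]
      have h := hL (qs s.1) (by have := s.2.2; simp only [qs]; omega)
      rw [← e0]
      linarith)
    (by
      have hδ0 : (0 : ℝ) ≤ δm := by
        have := hPrm.δ_nonneg 0
        have h3 := hδm 0 hh1
        linarith
      refine le_trans (mul_le_mul_of_nonneg_right (b := ((Fintype.card (Om n (2 ^ a)) : ℕ) : ℝ))
        (c := (2 : ℝ) ^ n ^ 2 ^ a) ?_ hδ0) hδ16
      exact_mod_cast hcard)
    (by
      refine le_trans (sum_le_sum fun s _ => ?_) (hsum.trans hq)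
      refine le_trans ?_ (pf_NUM s.1).1
      refine mul_le_mul_of_nonneg_left ?_ (by positivity)
      refine div_le_div_of_nonneg_right ?_ (by positivity)
      rw [sub_add_cancel]
      exact pow_le_pow_right₀ (by norm_num) (hlen s))
    (by
      refine le_trans (sum_le_sum fun s _ => ?_) (hsum.trans hq)
      exact (pf_NUM s.1).2)
    hR
  simp only at hTy hRv
  -- the oracles
  set O₁ : List Bool → Bool := G κ P b v with hO₁def
  have hO₁ : Bldg (Ae dd prog χ₀) (sdg 1 n (2 ^ a) σ₀ (tb n b v) κ P) O₁ := bo_spec _ _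
  obtain ⟨he, hx'⟩ := hLKX dd prog χ₀ σ₀ O₀ n a t k h D hStg b v κ P O₁ hO₁
  let Oo : Rw n → List Bool → Bool := fun x =>
    bo (hA (mk1 χ₀ (wst n x (v x)))) (sdg 1 n (2 ^ a) σ₀ (tb n (flp b x) v) κ P)
  have hOo : ∀ x, Bldg (Ae dd prog (mk1 χ₀ (wst n x (v x))))
      (sdg 1 n (2 ^ a) σ₀ (tb n (flp b x) v) κ P) (Oo x) := fun x => bo_spec _ _
  rw [← he] at hTy
  set dl : Rw n → Om n (2 ^ a) → Bool := fun x s => dlG (accH (fun s => lc n s.1) D P) h
        (TH (tb n b v) fun s => O₁ (key s.1)) (TH (tb n (flp b x) v) fun s => O₁ (key s.1))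
        (fun s => O₁ (key s.1)) s with hdl
  have hdlM : ∀ s, (univ.filter fun x => dl x s = true).card ≤ M := fun s =>
    (hTy s (hCrs.lt s)).trans (hKM _ (hCrs.lt s))
  let Z : Type := {x : Rw n // b x = false}
  have hZM : ∀ s, (univ.filter fun x : Z => dl x.1 s = true).card ≤ M := by
    intro s
    refine le_trans ?_ (hdlM s)
    rw [← card_map ⟨fun x : Z => x.1, Subtype.val_injective⟩]
    refine card_le_card fun x hx => ?_
    rw [Finset.mem_map] at hx
    obtain ⟨y, hy, rfl⟩ := hx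
    rw [mem_filter] at hy ⊢
    exact ⟨mem_univ _, hy.2⟩
  have hone1 : ∀ w : List Bool, (univ.filter fun x : Z => w = wst n x.1 (v x.1)).card ≤ 1 := by
    intro w
    rw [card_le_one]
    intro x hx y hy
    rw [mem_filter] at hx hy
    exact Subtype.ext (wst_inj n _ _ _ _ (hx.2.symm.trans hy.2)).1
  have hfew : ∀ w : List Bool, w.length ≤ n ^ 2 ^ a →
      (univ.filter fun x : Z => Oo x.1 w ≠ O₁ w).card ≤ M := by
    intro w hw
    by_cases hk : ∃ s : Om n (2 ^ a), w = key s.1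
    · obtain ⟨s, hs⟩ := hk
      refine le_trans (card_le_card fun x hx => ?_) (hZM s)
      rw [mem_filter] at hx ⊢
      refine ⟨mem_univ _, ?_⟩
      rcases (hx' x.1 x.2 (Oo x.1) (hOo x.1)).2.1 w hw hx.2 with h1 | ⟨s', h1, h2⟩
      · rw [hs] at h1
        simp [key, wst] at h1
      · have : s' = s := Subtype.ext (by
          have h3 : key s'.1 = key s.1 := h1.symm.trans hs
          simpa [key] using h3)
        rw [← this]
        exact h2
    · refine le_trans (card_le_card fun x hx => ?_) ((hone1 w).trans hM1)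
      rw [mem_filter] at hx ⊢
      refine ⟨mem_univ _, ?_⟩
      rcases (hx' x.1 x.2 (Oo x.1) (hOo x.1)).2.1 w hw hx.2 with h1 | ⟨s', h1, h2⟩
      · exact h1
      · exact absurd ⟨s', h1⟩ hk
  have hfew1 : ∀ w : List Bool, w.length < 2 ^ gam n →
      (univ.filter fun x : Z => Oo x.1 w ≠ O₁ w).card ≤ 1 := by
    intro w hw
    refine le_trans (card_le_card fun x hx => ?_) (hone1 w)
    rw [mem_filter] at hx ⊢
    refine ⟨mem_univ _, ?_⟩
    by_contra hne
    refine hx.2 ?_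
    rw [(hx' x.1 x.2 (Oo x.1) (hOo x.1)).1 w hw]
    exact Function.update_of_ne hne _ _
  have hfewa : ∀ s : List Bool, s.length < n ^ 2 ^ a →
      (univ.filter fun x : Z => ¬ (accv dd prog s (Oo x.1) ↔ accv dd prog s O₁)).card ≤ M := by
    intro s hs1
    by_cases hk : ∃ s' : Om n (2 ^ a), s'.1 = s
    · obtain ⟨s', hs'⟩ := hk
      refine le_trans (card_le_card fun x hx => ?_) (hZM s')
      rw [mem_filter] at hx ⊢
      refine ⟨mem_univ _, ?_⟩
      obtain ⟨s'', h1, h2⟩ := (hx' x.1 x.2 (Oo x.1) (hOo x.1)).2.2.2 s hs1 hx.2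
      have : s'' = s' := Subtype.ext (h1.trans hs'.symm)
      rw [← this]
      exact h2
    · have h1 : (univ.filter fun x : Z => ¬ (accv dd prog s (Oo x.1) ↔ accv dd prog s O₁)) = ∅ := by
        refine filter_eq_empty_iff.2 fun x _ hx => hk ?_
        obtain ⟨s'', h1, h2⟩ := (hx' x.1 x.2 (Oo x.1) (hOo x.1)).2.2.2 s hs1 hx
        exact ⟨s'', h1⟩
      rw [h1]
      exact Nat.zero_le _
  let JJ : (List Bool → Bool) → List Bool → Bool := fun O => joinO O {s | accv dd prog s O}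
  have hfewJ : ∀ w : List Bool, w.length ≤ n ^ 2 ^ a →
      (univ.filter fun x : Z => JJ (Oo x.1) w ≠ JJ O₁ w).card ≤ M := by
    intro w hw
    match w, hw with
    | [], hw =>
      refine le_trans (le_of_eq ?_) (Nat.zero_le M)
      rw [card_eq_zero]
      exact filter_eq_empty_iff.2 fun x _ hx => hx rfl
    | false :: u, hw =>
      rw [List.length_cons] at hw
      exact hfew u (by omega)
    | true :: s, hw =>
      rw [List.length_cons] at hw
      refine le_trans (card_le_card fun x hx => ?_) (hfewa s (by omega))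
      rw [mem_filter] at hx ⊢
      refine ⟨mem_univ _, fun hiff => hx.2 ?_⟩
      change decide (accv dd prog s (Oo x.1)) = decide (accv dd prog s O₁)
      exact decide_eq_decide.2 hiff
  -- the samplers
  let E : Z → Set (List Bool) := fun x =>
    {s | ¬ (Ae dd prog (mk1 χ₀ (wst n x.1 (v x.1))) s (Oo x.1) ↔ accv dd prog s (Oo x.1))}
  have hout : ∀ i j, (univ.filter fun x : Z => (F i).out j ∈ E x).card ≤ M := by
    intro i j
    have hl : ((F i).out j).length < n ^ 2 ^ a := lt_of_lt_of_le ((hF i).2.2 j) hca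
    by_cases hs' : ∃ s : Om n (2 ^ a), s.1 = (F i).out j
    · obtain ⟨s, hs'⟩ := hs'
      refine le_trans (card_le_card fun x hx => ?_) (hZM s)
      rw [mem_filter] at hx ⊢
      refine ⟨mem_univ _, ?_⟩
      obtain ⟨s', h1, h2⟩ := (hx' x.1 x.2 (Oo x.1) (hOo x.1)).2.2.1 ((F i).out j) hl
        (fun w hw => hFm i j w hw) hx.2
      have : s' = s := Subtype.ext (h1.trans hs'.symm)
      rw [← this]
      exact h2
    · have h1 : (univ.filter fun x : Z => (F i).out j ∈ E x) = ∅ := by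
        refine filter_eq_empty_iff.2 fun x _ hx => hs' ?_
        obtain ⟨s', h1, h2⟩ := (hx' x.1 x.2 (Oo x.1) (hOo x.1)).2.2.1 ((F i).out j) hl
          (fun w hw => hFm i j w hw) hx
        exact ⟨s', h1⟩
      rw [h1]
      exact Nat.zero_le _
  have hSB : ∀ i, ((univ.filter fun x : Z =>
      (1 / 2 : ℝ) ^ (gam n * c) < (F i).prob (JJ (Oo x.1)) (E x)).card : ℝ) ≤
      2 * M / (1 / 2) ^ (gam n * c) + 64 * (F i).alg.T ^ 2 * M / ((1 / 2) ^ (gam n * c)) ^ 2 :=
    fun i => hSMP Z (F i) (JJ O₁) (fun x => JJ (Oo x.1)) E M ((1 / 2) ^ (gam n * c)) (by positivity)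
      (fun j w hw => hfewJ w ((((hF i).1) j w hw).trans hca)) (by convert hout i)
  set BF : Finset Z := univ.filter fun x : Z =>
    ∃ i, (1 / 2 : ℝ) ^ (gam n * c) < (F i).prob (JJ (Oo x.1)) (E x) with hBF
  have hBFc : 16 * BF.card ≤ 2 ^ n := by
    refine count_F (gam n) c M n hι hfin (fun i => (F i).alg.T) (fun i => (hF i).2.1)
      (fun i => univ.filter fun x : Z => (1 / 2 : ℝ) ^ (gam n * c) < (F i).prob (JJ (Oo x.1)) (E x))
      hSB BF fun x hx => ?_
    rw [hBF, mem_filter] at hx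
    obtain ⟨i, hi⟩ := hx.2
    exact ⟨i, mem_filter.2 ⟨mem_univ _, hi⟩⟩
  -- the algorithms for the other rows
  have hQs : ∀ y : Rw n, ∀ i w, (Q (List.ofFn y)).query i = some w → w.length < 2 ^ gam n :=
    fun y i w hw => lt_of_le_of_lt ((hQ (List.ofFn y) (by simp)).1 i w hw) hnc
  have hQT : ∀ y : Rw n, (Q (List.ofFn y)).T ≤ τ := fun y => by
    have h1 := (hQ (List.ofFn y) (by simp)).2
    exact_mod_cast h1.trans hτ
  have hBQ : ∀ y : Rw n, 16 * (univ.filter fun x : Z =>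
      1 / 6 ≤ |(Q (List.ofFn y)).prob (Oo x.1) - (Q (List.ofFn y)).prob O₁|).card ≤ 2 ^ n := by
    intro y
    have h1 := (hBBC Z (Q (List.ofFn y)) O₁ (fun x => Oo x.1) 1 (1 / 6) (by norm_num)
      (fun i w hw => hfew1 w (hQs y i w hw))).2
    have h2 : ((Q (List.ofFn y)).T : ℝ) ≤ τ := by exact_mod_cast hQT y
    have h3 : ((Q (List.ofFn y)).T : ℝ) ^ 2 ≤ (τ : ℝ) ^ 2 :=
      pow_le_pow_left₀ (by positivity) h2 2
    have h4 : (2 : ℝ) ^ 16 * τ ^ 2 ≤ 2 ^ n := by exact_mod_cast hτ2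
    have h5 : (16 : ℝ) * ((univ.filter fun x : Z =>
      1 / 6 ≤ |(Q (List.ofFn y)).prob (Oo x.1) - (Q (List.ofFn y)).prob O₁|).card : ℝ) ≤
        2 ^ n := by
      refine le_trans (mul_le_mul_of_nonneg_left h1 (by norm_num)) ?_
      have e1 : (16 : ℝ) * (16 * ((Q (List.ofFn y)).T : ℝ) ^ 2 * ((1 : ℕ) : ℝ) / (1 / 6) ^ 2) =
          9216 * ((Q (List.ofFn y)).T : ℝ) ^ 2 := by
        push_cast
        ring
      rw [e1]
      have h6 : (0 : ℝ) ≤ (τ : ℝ) ^ 2 := by positivity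
      norm_num at h4
      linarith
    exact_mod_cast h5
  -- the algorithms for the planted rows
  unfold Rv at hRv
  obtain ⟨hZ2, hBR⟩ := hRv
  simp only at hZ2 hBR
  rw [hX] at hZ2 hBR
  have hZc : 2 ^ n ≤ 2 * Fintype.card Z := by
    refine hZ2.trans (Nat.mul_le_mul_left _ (le_of_eq ?_))
    rw [Fintype.card_subtype]
  have hBRc : 16 * (univ.filter fun x : Z =>
      1 / 6 ≤ |(Q (List.ofFn x.1)).prob (Oo x.1) - (Q (List.ofFn x.1)).prob O₁|).card ≤
        2 ^ n := by
    refine le_trans (Nat.mul_le_mul_left _ ?_) hBR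
    rw [← card_map ⟨fun x : Z => x.1, Subtype.val_injective⟩]
    refine card_le_card fun x hx => ?_
    rw [Finset.mem_map] at hx
    obtain ⟨y, hy, rfl⟩ := hx
    rw [mem_filter] at hy ⊢
    refine ⟨mem_univ _, y.2, ?_⟩
    have e1 : (Q (List.ofFn y.1)).prob (Oo y.1) =
        (Q (List.ofFn y.1)).prob (Function.update O₁ (wst n y.1 (v y.1)) true) :=
      pf_PCG _ _ _ fun i w hw =>
        (hx' y.1 y.2 (Oo y.1) (hOo y.1)).1 w (hQs y.1 i w hw)
    have h2 := hy.2
    rw [e1] at h2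
    exact h2
  have hmem : ∀ (x : Z) (y : Rw n), List.ofFn y ∈ ulang (Oo x.1) ↔ flp b x.1 y = true :=
    fun x y => mem_ulang (hOo x.1) y
  have h8n : 8 ≤ 2 ^ n := by
    calc 8 = 2 ^ 3 := by norm_num
      _ ≤ 2 ^ n := Nat.pow_le_pow_right (by norm_num) hn3
  have hmain : ∃ x : Z, x ∉ BF ∧ ∃ y : Rw n,
      ¬ Correct (Q (List.ofFn y)) (Oo x.1) (ulang (Oo x.1)) (List.ofFn y) := by
    by_cases hc : ∃ y₁ y₂ : Z, y₁ ≠ y₂ ∧ 1 / 2 < (Q (List.ofFn y₁.1)).prob O₁ ∧
        1 / 2 < (Q (List.ofFn y₂.1)).prob O₁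
    · obtain ⟨y₁, y₂, hne, hp1, hp2⟩ := hc
      obtain ⟨x, hxF, hx1, hx2⟩ := exists_good (2 ^ n) hZc BF
        (univ.filter fun x : Z =>
          1 / 6 ≤ |(Q (List.ofFn y₁.1)).prob (Oo x.1) - (Q (List.ofFn y₁.1)).prob O₁|)
        (univ.filter fun x : Z =>
          1 / 6 ≤ |(Q (List.ofFn y₂.1)).prob (Oo x.1) - (Q (List.ofFn y₂.1)).prob O₁|)
        (by have := hBQ y₁.1; have := hBQ y₂.1; omega)
      refine ⟨x, hxF, ?_⟩
      rw [mem_filter, not_and, not_le] at hx1 hx2
      have key : ∀ y : Z, y ≠ x → 1 / 2 < (Q (List.ofFn y.1)).prob O₁ →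
          |(Q (List.ofFn y.1)).prob (Oo x.1) - (Q (List.ofFn y.1)).prob O₁| < 1 / 6 →
          ¬ Correct (Q (List.ofFn y.1)) (Oo x.1) (ulang (Oo x.1)) (List.ofFn y.1) := by
        intro y hyx hp hd hcor
        have h1 : ¬ (List.ofFn y.1 ∈ ulang (Oo x.1)) := by
          rw [hmem x y.1]
          have h2 : flp b x.1 y.1 = b y.1 :=
            Function.update_of_ne (fun e => hyx (Subtype.ext e)) _ _
          rw [h2, y.2]
          simp
        have h2 := hcor.2 h1
        have h3 := (abs_lt.1 hd).1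
        linarith
      by_cases h12 : y₁ = x
      · exact ⟨y₂.1, key y₂ (fun e => hne (h12.trans e.symm)) hp2 (hx2 (mem_univ _))⟩
      · exact ⟨y₁.1, key y₁ h12 hp1 (hx1 (mem_univ _))⟩
    · push Not at hc
      obtain ⟨x, hxF, hx1, hx2⟩ := exists_good (2 ^ n) hZc BF
        (univ.filter fun x : Z =>
          1 / 6 ≤ |(Q (List.ofFn x.1)).prob (Oo x.1) - (Q (List.ofFn x.1)).prob O₁|)
        (univ.filter fun x : Z => 1 / 2 < (Q (List.ofFn x.1)).prob O₁)
        (by
          have h1 : (univ.filter fun x : Z => 1 / 2 < (Q (List.ofFn x.1)).prob O₁).card ≤ 1 := by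
            rw [card_le_one]
            intro x hx y hy
            rw [mem_filter] at hx hy
            by_contra hxy
            have := hc x y hxy hx.2
            linarith [hy.2]
          omega)
      refine ⟨x, hxF, x.1, fun hcor => ?_⟩
      rw [mem_filter, not_and, not_le] at hx1
      rw [mem_filter, not_and, not_lt] at hx2
      have h1 : List.ofFn x.1 ∈ ulang (Oo x.1) := by
        rw [hmem x x.1]
        have h2 : flp b x.1 x.1 = !b x.1 := Function.update_self _ _ _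
        rw [h2, x.2]
        rfl
      have h2 := hcor.1 h1
      have h3 := (abs_lt.1 (hx1 (mem_univ _))).2
      have h4 := hx2 (mem_univ _)
      linarith
  obtain ⟨x, hxF, y, hy⟩ := hmain
  have hlt : ∀ w : List Bool, w.length < n → w ≠ wst n x.1 (v x.1) := by
    intro w hw e
    rw [e, len_wst] at hw
    omega
  refine ⟨sdg 1 n (2 ^ a) σ₀ (tb n (flp b x.1) v) κ P, mk1 χ₀ (wst n x.1 (v x.1)), ?_, ?_, ?_, ?_,
    ?_, ?_⟩
  · intro w hw
    refine ⟨Pool.Agent.H70.OQ.SGG.short_eq pf_CLH pf_NST pf_COD hn2 w hw, ?_⟩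
    unfold mk1
    simp [hlt w hw]
  · exact Pool.Agent.H70.OQ.SGG.dec_all pf_CLH pf_COD hσ hDec
  · exact oneWit_sdg hone _ _ _ _
  · intro w hw
    unfold sdg
    rcases (pf_CLH 1 n (2 ^ a) σ₀).2.2.2 (false :: w) with ⟨p, h1⟩ | ⟨s', h1⟩ | ⟨s', i, v', h1⟩ | h1
    · exfalso
      have h2 : (false :: w).length = 3 * n + 1 := by
        rw [h1]
        exact len_wst n p.1 p.2
      rw [List.length_cons] at h2
      omega
    · simp [key] at h1
    · simp [Pool.Agent.H6.NB.blk] at h1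
    · rw [h1]
      refine hemp w (le_trans ?_ hw)
      omega
  · intro w hw
    unfold mk1 at hw
    rw [Bool.or_eq_true, decide_eq_true_eq] at hw
    rcases hw with hw | hw
    · have h1 := hmark w hw
      have h2 : 2 ^ Nat.sqrt w.length ≤ 3 * n + 1 := by omega
      unfold gam
      rw [Nat.le_sqrt']
      refine le_trans ?_ (show 3 * 2 ^ Nat.sqrt w.length + 1 ≤ 3 * n + 1 by omega)
      exact sq_le _
    · rw [hw, len_wst]
      exact le_rfl
  · intro σ' χ' O hag hB
    obtain ⟨hOe, hAe⟩ := hBUX dd prog χ' (mk1 χ₀ (wst n x.1 (v x.1))) σ' _ O (Oo x.1)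
      (2 ^ (gam n * e)) hs hB (hOo x.1) hag
    constructor
    · refine ⟨List.ofFn y, by simp, fun hcor => hy ?_⟩
      have e1 : (Q (List.ofFn y)).prob O = (Q (List.ofFn y)).prob (Oo x.1) :=
        pf_PCG _ _ _ fun i w hw => hOe w (by have := hQs y i w hw; omega)
      have e2 : List.ofFn y ∈ ulang O ↔ List.ofFn y ∈ ulang (Oo x.1) := by
        unfold ulang
        simp only [Set.mem_ofPred_eq, List.length_ofFn]
        refine exists_congr fun u => and_congr_right fun hu => ?_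
        rw [hOe]
        rw [List.length_cons, List.length_append, hu, List.length_ofFn]
        omega
      unfold Correct at hcor ⊢
      rw [← e2, ← e1]
      exact hcor
    · intro i
      have e1 : (F i).prob (joinO O {s | accv dd prog s O})
          {s | ¬ (Ae dd prog χ' s O ↔ accv dd prog s O)} = (F i).prob (JJ (Oo x.1)) (E x) := by
        refine samp_congr (F i) _ _ _ _ (fun j w hw => ?_) fun j => ?_
        · have hlw : w.length ≤ 2 ^ (gam n * e) := (((hF i).1 j w hw).trans hca).trans hae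
          clear hw
          match w, hlw with
          | [], hlw => rfl
          | false :: u, hlw =>
            rw [List.length_cons] at hlw
            exact hOe u (by omega)
          | true :: s, hlw =>
            rw [List.length_cons] at hlw
            change decide (accv dd prog s O) = decide (accv dd prog s (Oo x.1))
            exact decide_eq_decide.2 (hAe s (by omega)).2
        · have hl : ((F i).out j).length ≤ 2 ^ (gam n * e) :=
            ((hF i).2.2 j).le.trans (hca.trans hae)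
          simp only [E, Set.mem_ofPred_eq]
          rw [(hAe _ hl).1, (hAe _ hl).2]
      rw [e1]
      by_contra hcon
      push Not at hcon
      exact hxF (mem_filter.2 ⟨mem_univ _, ⟨i, hcon⟩⟩)

end Pool.Agent.H70.GS.SGU
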