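import Pool.Agent.H70.GS.Defs

/-!
# Worst-case hardness of UP for BQP without findable errors: module targets
-/

set_option autoImplicit false

namespace Pool.Agent.H70.GS

open Finset Filter Pool.Agent.H6.NB Pool.Agent.H70.OQ

/-! ## Part A: the universal machine and the oracles -/

/-- UNV: the universal machine. -/
def T_UNV : Prop := ∀ (κ : ℕ → ℕ) (V : ℕ → Σ k, Machine k), ∃ (dd : List Bool → ℕ)
  (prog : List Bool → List (List Bool) → DT), Smallv dd prog ∧ (∀ s, dd s ≤ κ s.length) ∧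
  (∀ O, accv dd prog [] O) ∧ ∀ i x O, (V i).1 ≤ κ (inst (V i).2.c i x).length →
    (x ∈ (V i).2.lang O ↔ accv dd prog (inst (V i).2.c i x) O)

/-- LAH: the universal machine is local. -/
def T_LAH : Prop := ∀ dd prog, Smallv dd prog → LocA (accv dd prog) ∧ ∀ χ, LocA (Ae dd prog χ)

/-- BUX: short strings of the oracle depend only on short strings of the seed and on short marks. -/
def T_BUX : Prop := ∀ dd prog (χ χ' σ σ' O O' : List Bool → Bool) (l : ℕ), Smallv dd prog →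
  Bldg (Ae dd prog χ) σ O → Bldg (Ae dd prog χ') σ' O' →
  (∀ w : List Bool, w.length ≤ l → σ w = σ' w ∧ χ w = χ' w) →
  (∀ w : List Bool, w.length ≤ l → O w = O' w) ∧
  ∀ s : List Bool, s.length ≤ l → (Ae dd prog χ s O ↔ Ae dd prog χ' s O') ∧
    (accv dd prog s O ↔ accv dd prog s O')

/-- FMU: the instances as formulas. -/
def T_FMU : Prop := ∀ dd prog (k n a t h : ℕ) (o : List Bool → Bool), Smallv dd prog →
  (∀ s : Om n (2 ^ a), dd s.1 ≤ k) → 2 ≤ n → n ^ 2 ^ a ≤ t ^ 2 → 1 ≤ h →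
  n ^ 2 ^ a ≤ (2 ^ (gam n / 2)) ^ 2 ^ h →
  ∃ D : Om n (2 ^ a) → (Cg 1 n (2 ^ a) → Bool) → Bool,
    Syg D (fun s => lv n s.1) (2 ^ t) t k a ∧ Crs D (fun s => lc n s.1) (2 ^ t) t k h ∧
    ∀ (s : Om n (2 ^ a)) T e P, (accv dd prog s.1 (fun w => vlG T e P (clg 1 n (2 ^ a) o w)) ↔
      accG D P s T e = true)

/-! ## Part B: coarse levels -/

/-- MEH: the instances satisfy the hypotheses of the ideal world. -/
def T_MEH : Prop := ∀ (B Ω : Type) (nn qb : Ω → ℕ) (D : Ω → (PosG B Ω nn qb → Bool) → Bool)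
  (lc : Ω → ℕ) (S t d h : ℕ), Crs D lc S t d h → ∀ P : Blk nn qb, Lvg (accH lc D P) lc h ∧
    ∀ s, Fj lc S t d (lc s) (accH lc D P s)

open Classical in
/-- CBH: the property of not being typical is in the class, as a function of one copy. -/
def T_CBH : Prop := ∀ (X B Ω : Type) [Fintype X] [DecidableEq X] [Fintype Ω]
  [DecidableEq Ω] (nn qb : Ω → ℕ) (D : Ω → (PosG B Ω nn qb → Bool) → Bool) (lc : Ω → ℕ)
  (S t d h S' M : ℕ) (K : ℕ → ℕ), Crs D lc S t d h → 2 ≤ S' → S ≤ S' → 2 ^ t ≤ S' →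
  (∀ j, j < h → K j ≤ M) → M + 1 ≤ S' → Fintype.card Ω * Fintype.card X ^ (M + 1) ≤ S' →
  1 ≤ Fintype.card X →
  ∀ (T : B → Bool) (U : X → B → Bool) (e : Ω → Bool) (P : Blk nn qb) (s : Ω) (i : Fin (nn s)),
    Cl (VV (qb s)) S' ((d + 5) * h + 2) fun p =>
      decide (¬ TyH lc D (updC P s i p) h K T U e)

open Classical in
/-- IDH: the ideal world is typical. -/
def T_IDH : Prop := ∀ (W X B Ω : Type) [Fintype W] [Fintype X] [DecidableEq X] [Fintype Ω]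
  [DecidableEq Ω] (nn qb : Ω → ℕ) (T : W → B → Bool) (U : W → X → B → Bool)
  (D : Ω → (PosG B Ω nn qb → Bool) → Bool) (lc : Ω → ℕ) (S t d h : ℕ) (w r k : ℕ → ℕ)
  (δ : ℕ → ℝ) (δm : ℝ), Crs D lc S t d h → Prm (Fintype.card X) S t d h w r k δ →
  (∀ f : (B → Bool) → Bool, Fm S t d f → ((univ.filter fun p : W =>
    k 0 < (univ.filter fun x => f (U p x) ≠ f (T p)).card).card : ℝ) ≤ δ 0 * Fintype.card W) →
  (∀ j < h, δ j ≤ δm) → ∀ P : Blk nn qb,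
  ((univ.filter fun p : W × (Ω → Bool) => ¬ TyH lc D P h k (T p.1) (U p.1) p.2).card : ℝ) ≤
    Fintype.card Ω * (δm * (Fintype.card W * 2 ^ Fintype.card Ω))

open Classical in
/-- EXK: there is a good configuration. -/
def T_EXK : Prop := ∀ (W X B Ω : Type) [Fintype W] [Nonempty W] [Fintype X] [DecidableEq X]
  [Fintype Ω] [DecidableEq Ω] (nn qb : Ω → ℕ) (T : W → B → Bool) (U : W → X → B → Bool)
  (D : Ω → (PosG B Ω nn qb → Bool) → Bool) (lev lc : Ω → ℕ) (S t d h' h S' M : ℕ) (w r k : ℕ → ℕ)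
  (δ : ℕ → ℝ) (δm Λ : ℝ) (R : W → (Ω → Bool) → Blk nn qb → Prop), Syg D lev S t d h' →
  Crs D lc S t d h → Prm (Fintype.card X) S t d h w r k δ →
  (∀ f : (B → Bool) → Bool, Fm S t d f → ((univ.filter fun p : W =>
    k 0 < (univ.filter fun x => f (U p x) ≠ f (T p)).card).card : ℝ) ≤ δ 0 * Fintype.card W) →
  (∀ j < h, δ j ≤ δm) → 1 ≤ Fintype.card X → 2 ≤ S' → S ≤ S' → 2 ^ t ≤ S' →
  (∀ j, j < h → k j ≤ M) → M + 1 ≤ S' → Fintype.card Ω * Fintype.card X ^ (M + 1) ≤ S' →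
  (∀ s, 10 ≤ qb s) →
  (∀ s f, Cl (VV (qb s)) S' ((d + 5) * h + 2) f → L12 (fun y => bi (f y)) ≤ Λ) →
  Fintype.card Ω * δm ≤ 1 / 16 →
  ∑ s, (nn s : ℝ) * ((Λ + 1) / √(2 ^ qb s)) ≤ 1 / 16 →
  ∑ s, (3 * (nn s : ℝ) ^ 2 / 2 ^ qb s + (1 - eps2 (qb s) / 4) ^ nn s) ≤ 1 / 16 →
  (∀ κ P, (univ.filter fun p : W => ¬ R p κ P).card * 4 ≤ 3 * Fintype.card W) →
  ∃ (p : W) (κ : Ω → Bool) (P : Blk nn qb),
    TyH lc D P h k (T p) (U p) (elG (accG D P) (T p) κ h') ∧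
    (∀ s, DecA (qb s) (nn s) (κ s) (P s)) ∧ R p κ P

/-! ## Part C: the table -/

/-- BSU: few rows are sensitive. -/
def T_BSU : Prop := ∀ (X Y : Type) [Fintype X] [DecidableEq X] [Fintype Y] [DecidableEq Y]
  (S t d w r K : ℕ) (f : (X × Y → Bool) → Bool), Fm S t d f → 2 ^ t ≤ S → 1 ≤ w →
  (2 * (w + (2 * w + 1) * (4 + r)) : ℝ) ≤ K * qw w ^ (d + 2) →
  ((univ.filter fun p : (X → Bool) × (X → Y) => K < (univ.filter fun x =>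
      f (tbl (flp p.1 x) p.2) ≠ f (tbl p.1 p.2)).card).card : ℝ) ≤
    2 / qw w ^ (d + 2) * (((Fintype.card X : ℝ) + 1) * ((S : ℝ) + 1) ^ (d + 2) * 2 / 2 ^ w +
      1 / 4 ^ r) * Fintype.card ((X → Bool) × (X → Y))

/-! ## Part D: quantum algorithms -/

/-- BBW: the hybrid argument, for all sets of outcomes. -/
def T_BBW : Prop := ∀ (X : Type) [Fintype X] [DecidableEq X] [Nonempty X] (Q : QAlg)
  (O : List Bool → Bool) (O' : X → List Bool → Bool) (K : ℕ),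
  (∀ i w, Q.query i = some w → (univ.filter fun x => O' x w ≠ O w).card ≤ K) →
  ∃ x, ∀ A : Finset Q.basis, |∑ i ∈ A, ‖Q.state (O' x) Q.T i‖ ^ 2 -
    ∑ i ∈ A, ‖Q.state O Q.T i‖ ^ 2| ≤ 4 * Q.T * √(K / Fintype.card X)

/-- BBC: few changes of the oracle are noticed. -/
def T_BBC : Prop := ∀ (X : Type) [Fintype X] [DecidableEq X] (Q : QAlg)
  (O : List Bool → Bool) (O' : X → List Bool → Bool) (K : ℕ) (η : ℝ), 0 < η →
  (∀ i w, Q.query i = some w → (univ.filter fun x => O' x w ≠ O w).card ≤ K) →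
  ((univ.filter fun x => ∃ A : Finset Q.basis, η ≤ |∑ i ∈ A, ‖Q.state (O' x) Q.T i‖ ^ 2 -
    ∑ i ∈ A, ‖Q.state O Q.T i‖ ^ 2|).card : ℝ) ≤ 16 * Q.T ^ 2 * K / η ^ 2 ∧
  ((univ.filter fun x => η ≤ |Q.prob (O' x) - Q.prob O|).card : ℝ) ≤ 16 * Q.T ^ 2 * K / η ^ 2

open Classical in
/-- SMP: the errors are rarely found. -/
def T_SMP : Prop := ∀ (X : Type) [Fintype X] [DecidableEq X] (F : Samp)
  (O : List Bool → Bool) (O' : X → List Bool → Bool) (E : X → Set (List Bool)) (M : ℕ) (η : ℝ),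
  0 < η → (∀ i w, F.alg.query i = some w → (univ.filter fun x => O' x w ≠ O w).card ≤ M) →
  (∀ i, (univ.filter fun x => F.out i ∈ E x).card ≤ M) →
  ((univ.filter fun x => η < F.prob (O' x) (E x)).card : ℝ) ≤
    2 * M / η + 64 * F.alg.T ^ 2 * M / η ^ 2

open Classical in
/-- REV: the witnesses are not found. -/
def T_REV : Prop := ∀ (X Y : Type) [Fintype X] [DecidableEq X] [Nonempty X] [Fintype Y]
  [DecidableEq Y] (G : (X → Bool) → (X → Y) → List Bool → Bool)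
  (str : X → Y → List Bool) (Q : X → QAlg) (τ : ℕ),
  (∀ b v x y, b x = false → G b (Function.update v x y) = G b v) →
  (∀ x, Function.Injective (str x)) → (∀ x, (Q x).T ≤ τ) → 2 ^ 16 * τ ^ 2 ≤ Fintype.card Y →
  (univ.filter fun p : (X → Bool) × (X → Y) => ¬ Rv G str Q p).card * 4 ≤
    3 * Fintype.card ((X → Bool) × (X → Y))

/-! ## Part E: the stage -/

/-- LKX: the oracles of the stage. -/
def T_LKX : Prop := ∀ dd prog (χ₀ σ₀ O₀ : List Bool → Bool) (n a t k h : ℕ)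
  (D : Om n (2 ^ a) → (Cg 1 n (2 ^ a) → Bool) → Bool), Stg dd prog χ₀ σ₀ O₀ n a t k h D →
  ∀ (b : Rw n → Bool) (v : Rw n → Wi n) (κ : Om n (2 ^ a) → Bool)
    (P : Blk (fun s : Om n (2 ^ a) => ns s.1) fun s => qs s.1) (O₁ : List Bool → Bool),
  Bldg (Ae dd prog χ₀) (sdg 1 n (2 ^ a) σ₀ (tb n b v) κ P) O₁ →
  ((fun s : Om n (2 ^ a) => O₁ (key s.1)) = elG (accG D P) (tb n b v) κ a) ∧
  ∀ x : Rw n, b x = false → ∀ Ox : List Bool → Bool,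
    Bldg (Ae dd prog (mk1 χ₀ (wst n x (v x)))) (sdg 1 n (2 ^ a) σ₀ (tb n (flp b x) v) κ P) Ox →
    (∀ w : List Bool, w.length < 2 ^ gam n → Ox w = Function.update O₁ (wst n x (v x)) true w) ∧
    (∀ w : List Bool, w.length ≤ n ^ 2 ^ a → Ox w ≠ O₁ w → w = wst n x (v x) ∨
      ∃ s : Om n (2 ^ a), w = key s.1 ∧ dlG (accH (fun s => lc n s.1) D P) h
        (TH (tb n b v) fun s => O₁ (key s.1)) (TH (tb n (flp b x) v) fun s => O₁ (key s.1))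
        (fun s => O₁ (key s.1)) s = true) ∧
    (∀ s : List Bool, s.length < n ^ 2 ^ a →
      (∀ w : List Bool, χ₀ w = true → 2 ^ Nat.sqrt w.length ≤ s.length) →
      ¬ (Ae dd prog (mk1 χ₀ (wst n x (v x))) s Ox ↔ accv dd prog s Ox) →
      ∃ s' : Om n (2 ^ a), s'.1 = s ∧ dlG (accH (fun s => lc n s.1) D P) h
        (TH (tb n b v) fun s => O₁ (key s.1)) (TH (tb n (flp b x) v) fun s => O₁ (key s.1))
        (fun s => O₁ (key s.1)) s' = true) ∧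
    ∀ s : List Bool, s.length < n ^ 2 ^ a → ¬ (accv dd prog s Ox ↔ accv dd prog s O₁) →
      ∃ s' : Om n (2 ^ a), s'.1 = s ∧ dlG (accH (fun s => lc n s.1) D P) h
        (TH (tb n b v) fun s => O₁ (key s.1)) (TH (tb n (flp b x) v) fun s => O₁ (key s.1))
        (fun s => O₁ (key s.1)) s' = true

/-- PRU: the parameters of the stage. -/
def T_PRU : Prop := ∀ (k c C : ℕ) (ε : ℝ), 0 < ε → ∃ e h : ℕ, ∀ᶠ n : ℕ in atTop,
  ∃ (a t S' M w' w0 r0 τ : ℕ) (w r κ : ℕ → ℕ) (δ : ℕ → ℝ) (δm : ℝ), 3 ≤ n ∧ 1 ≤ h ∧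
  2 ^ (gam n * c) ≤ n ^ 2 ^ a ∧ n ^ 2 ^ a ≤ 2 ^ (gam n * e) ∧ 3 * n + 1 < 2 ^ gam n ∧
  2 ^ gam n ≤ n ^ 2 ^ a ∧ n ^ c + c < 2 ^ gam n ∧ n ^ 2 ^ a ≤ t ^ 2 ∧
  n ^ 2 ^ a ≤ (2 ^ (gam n / 2)) ^ 2 ^ h ∧ 1 ≤ w0 ∧
  (2 * (w0 + (2 * w0 + 1) * (4 + r0)) : ℝ) ≤ κ 0 * qw w0 ^ (k + 2) ∧
  2 / qw w0 ^ (k + 2) * (((2 : ℝ) ^ n + 1) * ((2 : ℝ) ^ t + 1) ^ (k + 2) * 2 / 2 ^ w0 +
    1 / 4 ^ r0) ≤ δ 0 ∧
  Prm (2 ^ n) (2 ^ t) t k h w r κ δ ∧ (∀ j < h, δ j ≤ δm) ∧ (2 ^ n ^ 2 ^ a) * δm ≤ 1 / 16 ∧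
  2 ≤ S' ∧ 2 ^ t ≤ S' ∧ (∀ j < h, κ j ≤ M) ∧ 1 ≤ M ∧ M + 1 ≤ S' ∧
  2 ^ n ^ 2 ^ a * (2 ^ n) ^ (M + 1) ≤ S' ∧ 1 ≤ w' ∧
  (∀ q : ℕ, q ≤ 10 * n ^ 2 ^ a + 100 →
    (128 * (w' : ℝ)) ^ (2 * ((k + 5) * h + 2)) * ((w' : ℝ) ^ 2 +
      (2 * 2 ^ q) ^ 2 * ((S' : ℝ) + 1) ^ ((k + 5) * h + 2) / 2 ^ w') + 1 ≤ 2 ^ n) ∧
  (C * 2 ^ ((1 / 2 - ε) * n) : ℝ) ≤ τ ∧ 2 ^ 16 * τ ^ 2 ≤ 2 ^ n ∧
  2 ^ 11 * M * 2 ^ (5 * (gam n * c)) ≤ 2 ^ n

/-- SGU: one stage of the construction. -/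
def T_SGU : Prop := ∀ (k c C : ℕ) (ε : ℝ), 0 < ε → ∃ e : ℕ, ∀ᶠ n : ℕ in atTop, SP k c C ε e n

/-! ## Part F: the limit -/

/-- SEQ: the lengths of the stages. -/
def T_SEQ : Prop := ∀ (c C L Φ : ℕ → ℕ) (ε : ℕ → ℝ), (∀ k, 0 < ε k) → ∃ n e : ℕ → ℕ,
  (∀ k, SP k (c k) (C k) (ε k) (e k) (n k)) ∧ (∀ k, L k ≤ n k) ∧
  (∀ k, 2 ^ (gam (n k) * e k) < n (k + 1) ∧ 2 ^ gam (n k) < n (k + 1)) ∧
  ∀ k, Φ (2 ^ (gam (n k) * e k) + n k) < n (k + 1)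

/-- LIM: the limit of the stages. -/
def T_LIM : Prop := ∀ dd prog (n e c C : ℕ → ℕ) (ε : ℕ → ℝ) (Q : ℕ → List Bool → QAlg)
  (ι : ℕ → Type) [∀ k, Fintype (ι k)] (F : ∀ k, ι k → Samp), Smallv dd prog →
  (∀ k, SP k (c k) (C k) (ε k) (e k) (n k)) →
  (∀ k, 2 ^ (gam (n k) * e k) < n (k + 1) ∧ 2 ^ gam (n k) < n (k + 1)) →
  (∀ k, ∀ s : List Bool, s.length < 2 ^ (gam (n k) * e k) → dd s ≤ k) →
  (∀ k, ∀ x : List Bool, x.length = n k → (Q k x).Short (n k ^ c k + c k) ∧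
    ((Q k x).T : ℝ) ≤ C k * 2 ^ ((1 / 2 - ε k) * n k)) →
  (∀ k, Fintype.card (ι k) ≤ 2 ^ (gam (n k) * c k)) →
  (∀ k i, (F k i).alg.Short (2 ^ (gam (n k) * c k)) ∧ (F k i).alg.T ≤ 2 ^ (gam (n k) * c k) ∧
    ∀ b, ((F k i).out b).length < 2 ^ (gam (n k) * c k)) →
  (∀ k i b, 2 ^ gam (n k) ≤ ((F (k + 1) i).out b).length) →
  ∃ σ χ O : List Bool → Bool, Bldg (Ae dd prog χ) σ O ∧ (∀ s, Dec σ s) ∧ OneWit O ∧
    ∀ k, (∃ x : List Bool, x.length = n k ∧ ¬ Correct (Q k x) O (ulang O) x) ∧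
      ∀ i, (F k i).prob (joinO O {s | accv dd prog s O})
        {s | ¬ (Ae dd prog χ s O ↔ accv dd prog s O)} ≤ (1 / 2) ^ (gam (n k) * c k)

/-- REL: the queries of a sampler can be renamed. -/
def T_REL : Prop := ∀ (S : Samp) (f : List Bool → List Bool) (g : List Bool → List Bool), ∃ S' : Samp,
  S'.alg.T = S.alg.T ∧ (∀ m, (∀ i w, S.alg.query i = some w → (f w).length ≤ m) → S'.alg.Short m) ∧
  (∀ P : List Bool → Prop, (∀ i, P (g (S.out i))) → ∀ i, P (S'.out i)) ∧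
  ∀ (O O' : List Bool → Bool) (E E' : Set (List Bool)),
    (∀ i w, S.alg.query i = some w → O' (f w) = O w) → (∀ x, x ∈ E → g x ∈ E') →
    S.prob O E ≤ S'.prob O' E'

/-- FIN: the final result. -/
def T_FIN : Prop := ∀ (V : ℕ → Σ k, Machine k) (Q : ℕ → List Bool → QAlg) (S : ℕ → ℕ → Samp),
  (∀ j, ∃ (c C : ℕ) (ε : ℝ), 0 < ε ∧ ∀ x, (Q j x).Short (x.length ^ c + c) ∧
    ((Q j x).T : ℝ) ≤ C * 2 ^ ((1 / 2 - ε) * x.length)) →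
  (∀ j, ∃ c : ℕ, ∀ n, (S j n).alg.Short (n ^ c + c) ∧ (S j n).alg.T ≤ n ^ c + c ∧
    ∀ b, n ≤ ((S j n).out b).length ∧ ((S j n).out b).length ≤ n ^ c + c) →
  ∃ O : List Bool → Bool, OneWit O ∧
    (∀ j m, ∃ x : List Bool, m ≤ x.length ∧ ¬ Correct (Q j x) O (ulang O) x) ∧
    ∀ i i' j a : ℕ, ∀ᶠ n : ℕ in atTop,
      (S j n).prob (joinO O ((V i').2.lang O)) (Wrong (V i).2 i O) ≤ 1 / (n : ℝ) ^ a

end Pool.Agent.H70.GS
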