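import Pool.Agent.H70.GS.Targets
import Pool.Agent.H42.OQ.UNG

/-! Module UNV of gs_modules (helper70): the universal machine. -/

set_option autoImplicit false

namespace Pool.Agent.H70.GS.UNV

open Pool.Agent.H70.GS Pool.Agent.H70.OQ Pool.Agent.H6.NB Pool.Agent.H42.OQ.UNG

open Classical in
/-- The machine and the input of which `s` is the instance string. -/
noncomputable def ch (κ : ℕ → ℕ) (V : ℕ → Σ k, Machine k) (s : List Bool) :
    Option (ℕ × List Bool) :=
  if h : ∃ p : ℕ × List Bool, s = inst (V p.1).2.c p.1 p.2 ∧ (V p.1).1 ≤ κ s.length then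
    some h.choose
  else none

/-- The number of quantifiers. -/
def ddo (V : ℕ → Σ k, Machine k) : Option (ℕ × List Bool) → ℕ
  | some p => (V p.1).1
  | none => 0

/-- The tree. -/
def prgo (V : ℕ → Σ k, Machine k) (ws : List (List Bool)) : Option (ℕ × List Bool) → DT
  | some p => (V p.1).2.tree p.2 (ws.map (tr (p.2.length ^ (V p.1).2.c + (V p.1).2.c)))
  | none => DT.leaf true

theorem ch_spec (κ : ℕ → ℕ) (V : ℕ → Σ k, Machine k) (s : List Bool) (p : ℕ × List Bool)
    (h : ch κ V s = some p) : s = inst (V p.1).2.c p.1 p.2 ∧ (V p.1).1 ≤ κ s.length := by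
  unfold ch at h
  split_ifs at h with h1
  have h2 := h1.choose_spec
  have h3 : h1.choose = p := by simpa using h
  rw [h3] at h2
  exact h2

theorem ch_inst (h1 : T_COD) (κ : ℕ → ℕ) (V : ℕ → Σ k, Machine k) (i : ℕ) (x : List Bool)
    (hk : (V i).1 ≤ κ (inst (V i).2.c i x).length) :
    ch κ V (inst (V i).2.c i x) = some (i, x) := by
  have h : ∃ p : ℕ × List Bool, inst (V i).2.c i x = inst (V p.1).2.c p.1 p.2 ∧
      (V p.1).1 ≤ κ (inst (V i).2.c i x).length := ⟨(i, x), rfl, hk⟩
  unfold ch
  rw [dif_pos h]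
  obtain ⟨e1, e2⟩ := inst_inj h1 h.choose_spec.1
  rw [Option.some_inj]
  exact Prod.ext e1.symm e2.symm

theorem unv (h1 : Pool.Agent.H6.NB.T_COD) : T_UNV := by
  intro κ V
  refine ⟨fun s => ddo V (ch κ V s), fun s ws => prgo V ws (ch κ V s), ?_, ?_, ?_, ?_⟩
  · intro s ws hk _
    rcases hc : ch κ V s with _ | ⟨i, x⟩
    · have e : prgo V ws (ch κ V s) = DT.leaf true := by rw [hc]; rfl
      show (prgo V ws (ch κ V s)).depth ^ 2 ≤ s.length ∧
        ∃ m, m ^ 2 ≤ s.length ∧ (prgo V ws (ch κ V s)).Short m
      rw [e]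
      exact ⟨by simp [DT.depth], 0, by simp, trivial⟩
    · obtain ⟨hs, -⟩ := ch_spec κ V s _ hc
      have hs' : s = inst (V i).2.c i x := hs
      have h2 := inst_len h1 (V i).2.c i x
      rw [← hs'] at h2
      have h3 : (x.length ^ (V i).2.c + (V i).2.c) ^ 2 ≤ s.length :=
        le_trans (Nat.pow_le_pow_left (Nat.le_succ _) 2) h2
      have hk' : ws.length = (V i).1 := by
        simp only [hc, ddo] at hk
        exact hk
      have hlen : (ws.map (tr (x.length ^ (V i).2.c + (V i).2.c))).length = (V i).1 := by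
        rw [List.length_map, hk']
      have hsm : ∀ w ∈ ws.map (tr (x.length ^ (V i).2.c + (V i).2.c)),
          w.length ≤ x.length ^ (V i).2.c + (V i).2.c := by
        intro w hw
        obtain ⟨w', -, rfl⟩ := List.mem_map.1 hw
        unfold tr
        split_ifs with h4
        · exact h4
        · exact Nat.zero_le _
      have e : prgo V ws (ch κ V s) =
          (V i).2.tree x (ws.map (tr (x.length ^ (V i).2.c + (V i).2.c))) := by rw [hc]; rfl
      show (prgo V ws (ch κ V s)).depth ^ 2 ≤ s.length ∧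
        ∃ m, m ^ 2 ≤ s.length ∧ (prgo V ws (ch κ V s)).Short m
      rw [e]
      exact ⟨le_trans (Nat.pow_le_pow_left ((V i).2.depth_le x _ hlen hsm) 2) h3,
        x.length ^ (V i).2.c + (V i).2.c, h3, (V i).2.short x _ hlen hsm⟩
  · intro s
    show ddo V (ch κ V s) ≤ κ s.length
    rcases hc : ch κ V s with _ | p
    · exact Nat.zero_le _
    · exact (ch_spec κ V s p hc).2
  · intro O
    have hn : ch κ V ([] : List Bool) = none := by
      rcases hc : ch κ V ([] : List Bool) with _ | ⟨i, x⟩
      · rfl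
      · exfalso
        obtain ⟨hs, -⟩ := ch_spec κ V _ _ hc
        have h2 := inst_len h1 (V i).2.c i x
        rw [← hs] at h2
        simp at h2
    unfold accv acck
    simp only [hn, ddo, prgo, Alt, DT.eval]
  · intro i x O hk
    have h2 := inst_len h1 (V i).2.c i x
    have h3 : (x.length ^ (V i).2.c + (V i).2.c) ^ 2 ≤ (inst (V i).2.c i x).length :=
      le_trans (Nat.pow_le_pow_left (Nat.le_succ _) 2) h2
    have hmain := alt_map (fun w => w.length ^ 2 ≤ (inst (V i).2.c i x).length)
      (fun w => w.length ≤ x.length ^ (V i).2.c + (V i).2.c)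
      (tr (x.length ^ (V i).2.c + (V i).2.c))
      (by
        intro w _
        unfold tr
        split_ifs with h4
        · exact h4
        · exact Nat.zero_le _)
      (by
        intro w hw
        refine ⟨le_trans (Nat.pow_le_pow_left hw 2) h3, ?_⟩
        unfold tr
        rw [if_pos hw])
      (V i).1 true (fun ws => ((V i).2.tree x ws).eval O = true)
    unfold accv acck
    simp only [ch_inst h1 κ V i x hk, ddo, prgo]
    exact hmain.symm

end Pool.Agent.H70.GS.UNV
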