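import Pool.Agent.H6.NB.All
import Pool.Agent.H70.OQ.All
import Pool.Agent.H70.GS.Targets
import Pool.Agent.H19.GS.BSU
import Pool.Agent.H19.GS.LAH
import Pool.Agent.H19.GS.REV
import Pool.Agent.H21.GS.CBH
import Pool.Agent.H21.GS.PRU
import Pool.Agent.H3.GS.BBW
import Pool.Agent.H3.GS.BUX
import Pool.Agent.H3.GS.MEH
import Pool.Agent.H70.GS.LKX
import Pool.Agent.H70.GS.UNV
import Pool.Agent.H4.GS.EXK
import Pool.Agent.H4.GS.FIN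
import Pool.Agent.H4.GS.IDH
import Pool.Agent.H58.GS.FMU
import Pool.Agent.H58.GS.LIM
import Pool.Agent.H58.GS.SMP
import Pool.Agent.H69.GS.SEQ
import Pool.Agent.H70.GS.REL
import Pool.Agent.H70.GS.SGU

/-!
# Assembly of the modules
-/

set_option autoImplicit false

namespace Pool.Agent.H70.GS

theorem pf_BBW : T_BBW := Pool.Agent.H3.GS.BBW.bbw

theorem pf_BBC : T_BBC := Pool.Agent.H3.GS.BBW.bbc pf_BBW

theorem pf_BSU : T_BSU := Pool.Agent.H19.GS.BSU.bsu Pool.Agent.H70.OQ.pf_CUB Pool.Agent.H70.OQ.pf_CLG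

theorem pf_FMU : T_FMU := Pool.Agent.H58.GS.FMU.fmu Pool.Agent.H70.OQ.pf_CLH Pool.Agent.H6.NB.pf_COD Pool.Agent.H6.NB.pf_LVL Pool.Agent.H6.NB.pf_FIS

theorem pf_LAH : T_LAH := Pool.Agent.H19.GS.LAH.lah

theorem pf_BUX : T_BUX := Pool.Agent.H3.GS.BUX.bux pf_LAH

theorem pf_LIM : T_LIM := Pool.Agent.H58.GS.LIM.lim Pool.Agent.H70.OQ.pf_BLG pf_LAH Pool.Agent.H6.NB.pf_DCC Pool.Agent.H6.NB.pf_INI

theorem pf_MEH : T_MEH := Pool.Agent.H3.GS.MEH.meh Pool.Agent.H70.OQ.pf_FMS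

theorem pf_CBH : T_CBH := Pool.Agent.H21.GS.CBH.cbh Pool.Agent.H70.OQ.pf_EXG pf_MEH Pool.Agent.H70.OQ.pf_CLG Pool.Agent.H6.NB.pf_CLB

theorem pf_IDH : T_IDH := Pool.Agent.H4.GS.IDH.idh Pool.Agent.H70.OQ.pf_IDG pf_MEH Pool.Agent.H70.OQ.pf_EXG Pool.Agent.H70.OQ.pf_FMS Pool.Agent.H6.NB.pf_SWA

theorem pf_EXK : T_EXK := Pool.Agent.H4.GS.EXK.exk pf_IDH Pool.Agent.H70.OQ.pf_MEG Pool.Agent.H6.NB.pf_HYB Pool.Agent.H6.NB.pf_CPY Pool.Agent.H70.OQ.pf_CHG pf_CBH Pool.Agent.H6.NB.pf_CLR Pool.Agent.H6.NB.pf_DIF Pool.Agent.H6.NB.pf_MUP Pool.Agent.H6.NB.pf_DCP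

theorem pf_LKX : T_LKX := Pool.Agent.H70.GS.LKX.lkx Pool.Agent.H70.OQ.pf_CLH Pool.Agent.H70.OQ.pf_LKG Pool.Agent.H70.OQ.pf_EXG pf_LAH pf_MEH Pool.Agent.H70.OQ.pf_MEG

theorem pf_PRU : T_PRU := Pool.Agent.H21.GS.PRU.pru Pool.Agent.H70.OQ.pf_PMG

theorem pf_REL : T_REL := Pool.Agent.H70.GS.REL.rel

theorem pf_REV : T_REV := Pool.Agent.H19.GS.REV.rev pf_BBC

theorem pf_SMP : T_SMP := Pool.Agent.H58.GS.SMP.smp pf_BBC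

theorem pf_SGU : T_SGU := Pool.Agent.H70.GS.SGU.sgu pf_LAH pf_BUX pf_FMU pf_EXK pf_BSU pf_BBC pf_SMP pf_REV pf_LKX pf_PRU

theorem pf_SEQ : T_SEQ := Pool.Agent.H69.GS.SEQ.seq pf_SGU

theorem pf_UNV : T_UNV := Pool.Agent.H70.GS.UNV.unv Pool.Agent.H6.NB.pf_COD

theorem pf_FIN : T_FIN := Pool.Agent.H4.GS.FIN.fin pf_UNV pf_SEQ pf_LIM pf_REL Pool.Agent.H70.OQ.pf_YEG Pool.Agent.H6.NB.pf_COD

end Pool.Agent.H70.GS
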