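import Pool.Agent.H70.OQ.Stmt

/-!
# Worst-case hardness of UP for BQP without findable errors: definitions

The quantum query algorithms `QAlg`, the decision trees `DT`, the strings `inst`, `key`, `blk`, the quantum
algorithm `yesProb` and `Correct` are those of `Pool.Agent.H6.NB.Stmt`; the oracle machines `Machine k`
(with `k` alternating quantifiers) are those of `Pool.Agent.H70.OQ.Stmt`.
-/

set_option autoImplicit false

namespace Pool.Agent.H70.GS

open Pool.Agent.H6.NB Pool.Agent.H70.OQ

/-- A quantum query algorithm which outputs a string: if the final measurement of `alg` gives the basis
state `i`, the output is the string `out i`. (The accepting states of `alg` play no role.) -/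
structure Samp where
  /-- the quantum query algorithm -/
  alg : QAlg
  /-- the output for each outcome of the measurement -/
  out : alg.basis → List Bool

open Classical in
/-- The probability that the output of `S`, run with the oracle `O`, lies in the set `E`. -/
noncomputable def Samp.prob (S : Samp) (O : List Bool → Bool) (E : Set (List Bool)) : ℝ :=
  ∑ i ∈ Finset.univ.filter (fun i => S.out i ∈ E), ‖S.alg.state O S.alg.T i‖ ^ 2

open Classical in
/-- The oracle which answers the queries `0 u` by `O u` and the queries `1 u` by the truth value of
`u ∈ L`. -/
noncomputable def joinO (O : List Bool → Bool) (L : Set (List Bool)) : List Bool → Bool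
  | [] => false
  | false :: u => O u
  | true :: u => decide (u ∈ L)

/-- For every `x` there is at most one `v` with `|v| = 2 |x|` such that the oracle contains the string
`0 x v`. -/
def OneWit (O : List Bool → Bool) : Prop :=
  ∀ x v v' : List Bool, v.length = 2 * x.length → v'.length = 2 * x.length →
    O (false :: (x ++ v)) = true → O (false :: (x ++ v')) = true → v = v'

/-- The language `{x | ∃ v, |v| = 2 |x| and the oracle contains 0 x v}`; it is in `UP` relative to `O` if
`OneWit O`. -/
def ulang (O : List Bool → Bool) : Set (List Bool) :=
  {x | ∃ v : List Bool, v.length = 2 * x.length ∧ O (false :: (x ++ v)) = true}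

/-- The inputs `x` on which the quantum algorithm `yesProb`, run on the instance string of the machine
number `i` and of `x`, does not decide with error probability at most `1/3` whether the machine `M`
accepts `x` relative to the oracle `O`. -/
def Wrong {k : ℕ} (M : Machine k) (i : ℕ) (O : List Bool → Bool) : Set (List Bool) :=
  {x | ¬ ((x ∈ M.lang O → 2 / 3 ≤ yesProb O (inst M.c i x)) ∧
    (x ∉ M.lang O → yesProb O (inst M.c i x) ≤ 1 / 3))}

end Pool.Agent.H70.GS
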