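import Pool.Agent.H70.OQ.Targets
import Pool.Agent.H70.GS.Stmt

/-!
# Worst-case hardness of UP for BQP without findable errors: definitions for the proof
-/

set_option autoImplicit false

namespace Pool.Agent.H70.GS

open Finset Pool.Agent.H6.NB Pool.Agent.H70.OQ

/-! ## Oracles -/

/-- The instance `s` of the universal machine has the answer yes; it has `dd s` quantifiers. -/
def accv (dd : List Bool → ℕ) (prog : List Bool → List (List Bool) → DT) (s : List Bool)
    (O : List Bool → Bool) : Prop := acck (dd s) prog s O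

/-- The size condition on the universal machine. -/
def Smallv (dd : List Bool → ℕ) (prog : List Bool → List (List Bool) → DT) : Prop :=
  ∀ s ws, ws.length = dd s → (∀ w ∈ ws, w.length ^ 2 ≤ s.length) → (prog s ws).depth ^ 2 ≤ s.length ∧
    ∃ m, m ^ 2 ≤ s.length ∧ (prog s ws).Short m

/-- The oracle `O` as seen by the instance `s`: the strings `w` marked by `χ` are erased if
`|s| < 2 ^ √|w|`. -/
def er (χ : List Bool → Bool) (s : List Bool) (O : List Bool → Bool) : List Bool → Bool :=
  fun w => O w && !(χ w && decide (s.length < 2 ^ Nat.sqrt w.length))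

/-- The answer of the instance `s` which is written into the oracle. -/
def Ae (dd : List Bool → ℕ) (prog : List Bool → List (List Bool) → DT) (χ : List Bool → Bool)
    (s : List Bool) (O : List Bool → Bool) : Prop := accv dd prog s (er χ s O)

/-- Mark one more string. -/
def mk1 (χ : List Bool → Bool) (u : List Bool) : List Bool → Bool := fun w => χ w || decide (w = u)

/-! ## Coarse levels -/

section

variable {X B Ω : Type} {nn qb : Ω → ℕ}

/-- The position is not the key of an instance whose coarse level is positive and at least `j`. -/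
def Kyg (lc : Ω → ℕ) (j : ℕ) : PosG B Ω nn qb → Prop
  | .cst _ => True
  | .bas _ => True
  | .key s => lc s < j ∨ lc s = 0
  | .blk _ _ _ => True

/-- The hypotheses on the coarse levels. -/
structure Crs (D : Ω → (PosG B Ω nn qb → Bool) → Bool) (lc : Ω → ℕ) (S t d h : ℕ) : Prop where
  fm : ∀ s, Fm S t d (D s)
  low : ∀ s y y', (∀ c, Kyg lc (lc s) c → y c = y' c) → D s y = D s y'
  lt : ∀ s, lc s < h

/-- The value of the oracle at a position; `T` contains the table and the encrypted answers of coarse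
level `0`. -/
def vlH (lc : Ω → ℕ) (T : B ⊕ Ω → Bool) (e : Ω → Bool) (P : Blk nn qb) : PosG B Ω nn qb → Bool
  | .cst b => b
  | .bas a => T (.inl a)
  | .key s => if lc s = 0 then T (.inr s) else e s
  | .blk s i v => P s i v

/-- The answers of the instances for given blocks. -/
def accH (lc : Ω → ℕ) (D : Ω → (PosG B Ω nn qb → Bool) → Bool) (P : Blk nn qb) : Ω → Gn (B ⊕ Ω) Ω :=
  fun s T e => D s (vlH lc T e P)

/-- The table together with the encrypted answers. -/
def TH (T : B → Bool) (e : Ω → Bool) : B ⊕ Ω → Bool := Sum.elim T e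

variable [Fintype X]

/-- All instances are typical; the encrypted answers of coarse level `0` are not adapted. -/
def TyH (lc : Ω → ℕ) (D : Ω → (PosG B Ω nn qb → Bool) → Bool) (P : Blk nn qb) (h : ℕ) (K : ℕ → ℕ)
    (T : B → Bool) (U : X → B → Bool) (e : Ω → Bool) : Prop :=
  TyG (accH lc D P) lc h K h (TH T e) (fun x => TH (U x) e) e

end

/-! ## Tables -/

/-- The table in which the row `x` has the witness `v x` if `b x = true`, and no witness otherwise. -/
def tbl {X Y : Type} [DecidableEq Y] (b : X → Bool) (v : X → Y) : X × Y → Bool :=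
  fun p => b p.1 && decide (p.2 = v p.1)

/-- The rows of the stage `n`. -/
abbrev Rw (n : ℕ) : Type := Fin n → Bool

/-- The witnesses of the stage `n`. -/
abbrev Wi (n : ℕ) : Type := Ys n 0

/-- The table of the stage `n`. -/
def tb (n : ℕ) (b : Rw n → Bool) (v : Rw n → Wi n) : Nn n 1 → Bool := fun p => tbl b v (p.1, p.2)

/-- The string which says that `y` is a witness for the row `x`. -/
def wst (n : ℕ) (x : Rw n) (y : Wi n) : List Bool := false :: (List.ofFn x ++ List.ofFn y)

/-- The square root of the length of the strings of the table. -/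
def gam (n : ℕ) : ℕ := Nat.sqrt (3 * n + 1)

/-- The coarse level of an instance. -/
def lc (n : ℕ) (s : List Bool) : ℕ :=
  if s.length < 2 ^ gam n then 0 else lv (2 ^ (gam n / 2)) s

/-- The data of a stage. -/
structure Stg (dd : List Bool → ℕ) (prog : List Bool → List (List Bool) → DT)
    (χ₀ σ₀ O₀ : List Bool → Bool) (n a t k h : ℕ)
    (D : Om n (2 ^ a) → (Cg 1 n (2 ^ a) → Bool) → Bool) : Prop where
  small : Smallv dd prog
  n2 : 2 ≤ n
  hi : 2 ^ gam n ≤ n ^ 2 ^ a
  mark : ∀ w : List Bool, χ₀ w = true → 2 ^ Nat.sqrt w.length ≤ n ^ 2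
  empty : ∀ w : List Bool, w.length = 3 * n → σ₀ (false :: w) = false
  old : Bldg (Ae dd prog χ₀) σ₀ O₀
  syg : Syg D (fun s => lv n s.1) (2 ^ t) t k a
  crs : Crs D (fun s => lc n s.1) (2 ^ t) t k h
  tru : ∀ (s : Om n (2 ^ a)) T e P, (accv dd prog s.1 (fun w => vlG T e P (clg 1 n (2 ^ a) O₀ w)) ↔
    accG D P s T e = true)

/-- The event that the algorithms `Q x` do not find the witness of the row `x`. -/
def Rv {X Y : Type} [Fintype X] (G : (X → Bool) → (X → Y) → List Bool → Bool)
    (str : X → Y → List Bool) (Q : X → QAlg) (p : (X → Bool) × (X → Y)) : Prop := by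
  classical exact
  Fintype.card X ≤ 2 * (univ.filter fun x => p.1 x = false).card ∧
    16 * (univ.filter fun x => p.1 x = false ∧
      1 / 6 ≤ |(Q x).prob (Function.update (G p.1 p.2) (str x (p.2 x)) true) -
        (Q x).prob (G p.1 p.2)|).card ≤ Fintype.card X

/-! ## One stage of the construction -/

/-- The properties of one stage of the construction. -/
def SP (k c C : ℕ) (ε : ℝ) (e n : ℕ) : Prop :=
  ∀ dd prog, Smallv dd prog → (∀ s : List Bool, s.length < 2 ^ (gam n * e) → dd s ≤ k) →
  ∀ Q : List Bool → QAlg, (∀ x : List Bool, x.length = n → (Q x).Short (n ^ c + c) ∧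
    ((Q x).T : ℝ) ≤ C * 2 ^ ((1 / 2 - ε) * n)) →
  ∀ (ι : Type) [Fintype ι] (F : ι → Samp), Fintype.card ι ≤ 2 ^ (gam n * c) →
  (∀ i, (F i).alg.Short (2 ^ (gam n * c)) ∧ (F i).alg.T ≤ 2 ^ (gam n * c) ∧
    ∀ b, ((F i).out b).length < 2 ^ (gam n * c)) →
  ∀ σ₀ χ₀ : List Bool → Bool, (∀ s, Dec σ₀ s) → OneWit σ₀ →
  (∀ w : List Bool, n ≤ w.length → σ₀ (false :: w) = false) →
  (∀ w : List Bool, χ₀ w = true → 2 ^ Nat.sqrt w.length ≤ n) →
  (∀ i b w, χ₀ w = true → 2 ^ Nat.sqrt w.length ≤ ((F i).out b).length) →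
  ∃ σ χ : List Bool → Bool, (∀ w : List Bool, w.length < n → σ w = σ₀ w ∧ χ w = χ₀ w) ∧
    (∀ s, Dec σ s) ∧ OneWit σ ∧
    (∀ w : List Bool, 2 ^ (gam n * e) ≤ w.length → σ (false :: w) = false) ∧
    (∀ w : List Bool, χ w = true → Nat.sqrt w.length ≤ gam n) ∧
    ∀ σ' χ' O : List Bool → Bool, (∀ w : List Bool, w.length ≤ 2 ^ (gam n * e) →
        σ' w = σ w ∧ χ' w = χ w) → Bldg (Ae dd prog χ') σ' O →
      (∃ x : List Bool, x.length = n ∧ ¬ Correct (Q x) O (ulang O) x) ∧
      ∀ i, (F i).prob (joinO O {s | accv dd prog s O})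
        {s | ¬ (Ae dd prog χ' s O ↔ accv dd prog s O)} ≤ (1 / 2) ^ (gam n * c)

end Pool.Agent.H70.GS
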