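import Pool.Agent.H70.OQ.All
import Pool.Agent.H70.GS.Targets

/-!
# Lemmas for one stage of the construction
-/

set_option autoImplicit false

namespace Pool.Agent.H70.GS.SGL

open Pool.Agent.H6.NB Pool.Agent.H70.OQ Pool.Agent.H70.GS Finset Filter

theorem len_wst (n : ℕ) (x : Rw n) (y : Wi n) : (wst n x y).length = 3 * n + 1 := by
  unfold wst
  rw [List.length_cons, List.length_append, List.length_ofFn, List.length_ofFn]
  norm_num
  ring

theorem wst_nstr (n : ℕ) (x : Rw n) (y : Wi n) : wst n x y = false :: nstr n 1 (x, y) := rfl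

theorem wst_inj (n : ℕ) (x x' : Rw n) (y y' : Wi n) (h : wst n x y = wst n x' y') :
    x = x' ∧ y = y' := by
  rw [wst_nstr, wst_nstr] at h
  have h1 := (pf_NST n 1).2.1 (x, y) (x', y') (List.cons.inj h).2
  exact Prod.mk.inj h1

/-- strings of the right lengths are nodes -/
theorem exists_node {n : ℕ} (v : List Bool) (hv : v.length = 2 * n) :
    ∃ y : Wi n, v = List.ofFn y := by
  have h : v.length = 2 ^ (0 + 1) * n := by rw [hv]; norm_num
  refine ⟨fun i => v.get (Fin.cast h.symm i), ?_⟩
  refine List.ext_get ?_ ?_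
  · rw [List.length_ofFn, h]
  · intro i h1 h2
    simp

theorem clg_wst {n a : ℕ} (o : List Bool → Bool) (x : Rw n) (y : Wi n) :
    clg 1 n a o (wst n x y) = .bas (x, y) := (pf_CLH 1 n a o).1 (x, y)

theorem sdg_wst {n a : ℕ} (σ₀ : List Bool → Bool) (T : Nn n 1 → Bool) (κ : Om n a → Bool)
    (P : Blk (fun s : Om n a => ns s.1) fun s => qs s.1) (x : Rw n) (y : Wi n) :
    sdg 1 n a σ₀ T κ P (wst n x y) = T (x, y) := by
  unfold sdg
  rw [clg_wst]
  rfl

/-- membership in the language at the stage -/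
theorem mem_ulang {A : List Bool → (List Bool → Bool) → Prop} {n a : ℕ} {σ₀ O : List Bool → Bool}
    {b : Rw n → Bool} {v : Rw n → Wi n} {κ : Om n a → Bool}
    {P : Blk (fun s : Om n a => ns s.1) fun s => qs s.1}
    (h : Bldg A (sdg 1 n a σ₀ (tb n b v) κ P) O) (x : Rw n) :
    List.ofFn x ∈ ulang O ↔ b x = true := by
  unfold ulang
  simp only [Set.mem_ofPred_eq, List.length_ofFn]
  constructor
  · rintro ⟨u, hu, hO⟩
    obtain ⟨y, rfl⟩ := exists_node u hu
    rw [Pool.Agent.H70.OQ.SGG.bld_base h] at hO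
    have h2 := sdg_wst σ₀ (tb n b v) κ P x y
    unfold wst at h2
    rw [h2] at hO
    unfold tb tbl at hO
    simp only [Bool.and_eq_true] at hO
    exact hO.1
  · intro hb
    refine ⟨List.ofFn (v x), by simp, ?_⟩
    rw [Pool.Agent.H70.OQ.SGG.bld_base h]
    have h2 := sdg_wst σ₀ (tb n b v) κ P x (v x)
    unfold wst at h2
    rw [h2]
    unfold tb tbl
    simp [hb]

/-- unique witnesses of the seed of the stage -/
theorem oneWit_sdg {n a : ℕ} {σ₀ : List Bool → Bool} (h0 : OneWit σ₀) (b : Rw n → Bool)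
    (v : Rw n → Wi n) (κ : Om n (2 ^ a) → Bool)
    (P : Blk (fun s : Om n (2 ^ a) => ns s.1) fun s => qs s.1) :
    OneWit (sdg 1 n (2 ^ a) σ₀ (tb n b v) κ P) := by
  intro x u u' hu hu' h1 h2
  by_cases hx : x.length = n
  · obtain ⟨x', rfl⟩ := Pool.Agent.H70.OQ.SGG.exists_ofFn hx
    rw [List.length_ofFn] at hu hu'
    obtain ⟨y, rfl⟩ := exists_node u hu
    obtain ⟨y', rfl⟩ := exists_node u' hu'
    have e1 := sdg_wst σ₀ (tb n b v) κ P x' y
    have e2 := sdg_wst σ₀ (tb n b v) κ P x' y'
    unfold wst at e1 e2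
    rw [e1] at h1
    rw [e2] at h2
    unfold tb tbl at h1 h2
    simp only [Bool.and_eq_true, decide_eq_true_eq] at h1 h2
    rw [h1.2, h2.2]
  · have key : ∀ w : List Bool, w.length = 2 * x.length →
        sdg 1 n (2 ^ a) σ₀ (tb n b v) κ P (false :: (x ++ w)) = σ₀ (false :: (x ++ w)) := by
      intro w hw
      refine Pool.Agent.H70.OQ.SGG.sd_other pf_CLH pf_NST hx ?_
      rw [List.length_append, hw]
      norm_num
      ring
    rw [key u hu] at h1
    rw [key u' hu'] at h2
    exact h0 x u u' hu hu' h1 h2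

theorem oneWit_bld {A : List Bool → (List Bool → Bool) → Prop} {σ O : List Bool → Bool}
    (h : Bldg A σ O) (h1 : OneWit σ) : OneWit O := by
  intro x u u' hu hu' e1 e2
  rw [Pool.Agent.H70.OQ.SGG.bld_base h] at e1 e2
  exact h1 x u u' hu hu' e1 e2

/-- the state depends only on the values at the queries -/
theorem state_congr (Q : QAlg) (O O' : List Bool → Bool)
    (h : ∀ i w, Q.query i = some w → O w = O' w) (t : ℕ) : Q.state O t = Q.state O' t := by
  have hp : ∀ i, Q.phase O i = Q.phase O' i := by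
    intro i
    unfold QAlg.phase
    cases hq : Q.query i with
    | none => rfl
    | some w => simp only [h i w hq]
  induction t with
  | zero => rfl
  | succ t ih =>
    unfold QAlg.state
    rw [ih]
    congr 1
    funext i
    rw [hp i]

theorem samp_congr (F : Samp) (O O' : List Bool → Bool) (E E' : Set (List Bool))
    (h : ∀ i w, F.alg.query i = some w → O w = O' w) (hE : ∀ i, F.out i ∈ E ↔ F.out i ∈ E') :
    F.prob O E = F.prob O' E' := by
  classical
  unfold Samp.prob
  rw [state_congr F.alg O O' h]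
  refine sum_congr ?_ fun _ _ => rfl
  ext i
  simp only [mem_filter, mem_univ, true_and]
  exact hE i

end Pool.Agent.H70.GS.SGL
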